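import Mathlib

set_option autoImplicit false

/-! # A function on `[1/2, 1]` with unimodal positive part and one change of sign -/

namespace Pool.Agent.Q82.KR

open Real Set MeasureTheory

/-- `φ` is continuous on `[1/2, 1]`, vanishes at the end points, changes its sign at most once, and
its positive part is strictly quasi-concave -/
structure Uni (φ : ℝ → ℝ) : Prop where
  cont : ContinuousOn φ (Icc (1 / 2) 1)
  half : φ (1 / 2) = 0
  one : φ 1 = 0
  sgn : ∀ x₁ x₂, 1 / 2 < x₁ → x₁ < x₂ → x₂ < 1 → 0 ≤ φ x₂ → 0 < φ x₁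
  quasi : ∀ x₁ x₂ x₃, 1 / 2 < x₁ → x₁ < x₂ → x₂ < x₃ → x₃ < 1 → 0 < φ x₃ →
    min (φ x₁) (φ x₃) < φ x₂

variable {φ : ℝ → ℝ} (h : Uni φ)

include h

lemma Uni.int {p q : ℝ} (hp : 1 / 2 ≤ p) (hpq : p ≤ q) (hq : q ≤ 1) :
    IntervalIntegrable φ volume p q :=
  (h.cont.mono (by rw [uIcc_of_le hpq]; exact Icc_subset_Icc hp hq)).intervalIntegrable

lemma Uni.exists_sign : ∃ x₀ ∈ Icc (1 / 2 : ℝ) 1, (∀ x, 1 / 2 < x → x < x₀ → 0 < φ x) ∧
    ∀ x, x₀ < x → x < 1 → φ x < 0 := by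
  set S := {x : ℝ | x ∈ Ico (1 / 2 : ℝ) 1 ∧ 0 ≤ φ x} with hS
  have hne : S.Nonempty := ⟨1 / 2, ⟨le_rfl, by norm_num⟩, h.half.ge⟩
  have hbdd : BddAbove S := ⟨1, fun x hx => hx.1.2.le⟩
  refine ⟨sSup S, ⟨le_csSup hbdd ⟨⟨le_rfl, by norm_num⟩, h.half.ge⟩,
    csSup_le hne fun x hx => hx.1.2.le⟩, ?_, ?_⟩
  · intro x hx1 hx2
    obtain ⟨x', hx', hlt⟩ := exists_lt_of_lt_csSup hne hx2
    exact h.sgn x x' hx1 hlt hx'.1.2 hx'.2
  · intro x hx1 hx2
    by_contra hcon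
    push Not at hcon
    have hx0 : 1 / 2 ≤ x := by
      have : (1 / 2 : ℝ) ≤ sSup S := le_csSup hbdd ⟨⟨le_rfl, by norm_num⟩, h.half.ge⟩
      linarith
    exact absurd (le_csSup hbdd ⟨⟨hx0, hx2⟩, hcon⟩) (not_le.2 hx1)

/-- a root of the equation is followed by a larger value -/
lemma Uni.exists_gt {α : ℝ} (hα : α ∈ Ioo (1 / 2 : ℝ) 1) (ht : 0 < φ α)
    (hr : (1 - α) * φ α = ∫ x in α..1, φ x) : ∃ x ∈ Ioo α 1, φ α < φ x := by
  by_contra hcon
  push Not at hcon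
  have hle : ∀ x ∈ Icc α 1, φ x ≤ φ α := by
    intro x hx
    rcases eq_or_lt_of_le hx.1 with e | e
    · rw [e]
    · rcases eq_or_lt_of_le hx.2 with e' | e'
      · rw [e', h.one]; exact ht.le
      · exact hcon x ⟨e, e'⟩
  have hlt : ∫ x in α..1, φ x < ∫ x in α..1, φ α := by
    apply intervalIntegral.integral_lt_integral_of_continuousOn_of_le_of_exists_lt hα.2
      (h.cont.mono (Icc_subset_Icc hα.1.le le_rfl)) continuousOn_const
      (fun x hx => hle x ⟨hx.1.le, hx.2⟩)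
    exact ⟨1, right_mem_Icc.2 hα.2.le, by rw [h.one]; exact ht⟩
  rw [intervalIntegral.integral_const, smul_eq_mul] at hlt
  linarith

lemma Uni.strictMono {α : ℝ} (hα : α ∈ Ioo (1 / 2 : ℝ) 1) (ht : 0 < φ α)
    (hr : (1 - α) * φ α = ∫ x in α..1, φ x) : StrictMonoOn φ (Icc (1 / 2) α) := by
  obtain ⟨x', hx', hlt⟩ := h.exists_gt hα ht hr
  intro x₁ hx₁ x₂ hx₂ h12
  rcases eq_or_lt_of_le hx₁.1 with e | e
  · rw [← e, h.half]
    rcases eq_or_lt_of_le hx₂.2 with e2 | e2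
    · rw [e2]; exact ht
    · exact h.sgn x₂ α (by linarith) e2 hα.2 ht.le
  · by_contra hcon
    push Not at hcon
    have hx'0 : 0 < φ x' := ht.trans hlt
    have t1 := h.quasi x₁ x₂ x' e h12 (lt_of_le_of_lt hx₂.2 hx'.1) hx'.2 hx'0
    have t2 : φ x' < φ x₂ := by
      rcases min_lt_iff.1 t1 with t | t
      · exact absurd hcon (not_le.2 t)
      · exact t
    rcases eq_or_lt_of_le hx₂.2 with e2 | e2
    · rw [e2] at t2; linarith
    · have t3 := h.quasi x₂ α x' (by linarith) e2 hx'.1 hx'.2 hx'0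
      rw [min_eq_right t2.le] at t3
      linarith

lemma Uni.crossing {α : ℝ} (hα : α ∈ Ioo (1 / 2 : ℝ) 1) (ht : 0 < φ α)
    (hr : (1 - α) * φ α = ∫ x in α..1, φ x) :
    ∃ x₁ ∈ Ioo α 1, (∀ x ∈ Icc α x₁, φ α ≤ φ x) ∧ ∀ x ∈ Ico x₁ 1, φ x ≤ φ α := by
  obtain ⟨x', hx', hlt⟩ := h.exists_gt hα ht hr
  have hiv : ∃ x₁ ∈ Icc x' 1, φ x₁ = φ α := by
    have := intermediate_value_Icc' hx'.2.le
      (h.cont.mono (Icc_subset_Icc (by linarith [hx'.1, hα.1]) le_rfl))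
    have h2 : φ α ∈ Icc (φ 1) (φ x') := ⟨by rw [h.one]; exact ht.le, hlt.le⟩
    obtain ⟨x₁, hx₁, e⟩ := this h2
    exact ⟨x₁, hx₁, e⟩
  obtain ⟨x₁, hx₁, e₁⟩ := hiv
  have hx1lt : x₁ < 1 := by
    rcases eq_or_lt_of_le hx₁.2 with e | e
    · rw [e, h.one] at e₁; linarith
    · exact e
  have hαx : α < x₁ := lt_of_lt_of_le hx'.1 hx₁.1
  refine ⟨x₁, ⟨hαx, hx1lt⟩, ?_, ?_⟩
  · intro x hx
    rcases eq_or_lt_of_le hx.1 with e | e
    · rw [e]
    · rcases eq_or_lt_of_le hx.2 with e' | e'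
      · rw [e', e₁]
      · have := h.quasi α x x₁ hα.1 e e' hx1lt (by rw [e₁]; exact ht)
        rw [e₁, min_self] at this
        exact this.le
  · intro x hx
    rcases eq_or_lt_of_le hx.1 with e | e
    · rw [← e, e₁]
    · by_contra hcon
      push Not at hcon
      have := h.quasi α x₁ x hα.1 hαx e hx.2 (ht.trans hcon)
      rw [e₁, min_eq_left hcon.le] at this
      exact lt_irrefl _ this

lemma Uni.exists_root (hI : 0 < ∫ x in (1 / 2 : ℝ)..1, φ x) :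
    ∃ α, α ∈ Ioo (1 / 2 : ℝ) 1 ∧ 0 < φ α ∧ (1 - α) * φ α = ∫ x in α..1, φ x := by
  obtain ⟨c, hc, hmax⟩ := isCompact_Icc.exists_isMaxOn
    (nonempty_Icc.2 (by norm_num : (1 / 2 : ℝ) ≤ 1)) h.cont
  have hcpos : 0 < φ c := by
    by_contra hcon
    push Not at hcon
    have : ∫ x in (1 / 2 : ℝ)..1, φ x ≤ ∫ x in (1 / 2 : ℝ)..1, (0 : ℝ) :=
      intervalIntegral.integral_mono_on (by norm_num) (h.int le_rfl (by norm_num) le_rfl)
        intervalIntegrable_const fun x hx => (hmax hx).trans hcon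
    simp at this
    norm_num at hI this
    linarith
  have hc1 : 1 / 2 < c := by
    rcases eq_or_lt_of_le hc.1 with e | e
    · rw [← e, h.half] at hcpos; exact absurd hcpos (lt_irrefl _)
    · exact e
  have hc2 : c < 1 := by
    rcases eq_or_lt_of_le hc.2 with e | e
    · rw [e, h.one] at hcpos; exact absurd hcpos (lt_irrefl _)
    · exact e
  set H : ℝ → ℝ := fun x => (1 - x) * φ x - ∫ t in x..1, φ t with hH
  have hHcont : ContinuousOn H (Icc (1 / 2) c) := by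
    apply ContinuousOn.sub
    · exact (continuousOn_const.sub continuousOn_id).mul
        (h.cont.mono (Icc_subset_Icc le_rfl hc2.le))
    · have hi : IntegrableOn φ (uIcc (1 : ℝ) (1 / 2)) := by
        rw [uIcc_of_ge (by norm_num)]
        exact h.cont.integrableOn_Icc
      have := intervalIntegral.continuousOn_primitive_interval (f := φ) (μ := volume) hi
      have h2 : ContinuousOn (fun x => -∫ t in (1 : ℝ)..x, φ t) (uIcc (1 : ℝ) (1 / 2)) := this.neg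
      refine (h2.mono ?_).congr fun x _ => ?_
      · rw [uIcc_of_ge (by norm_num)]
        exact Icc_subset_Icc le_rfl hc2.le
      · exact intervalIntegral.integral_symm _ _
  have hH0 : H (1 / 2) < 0 := by
    simp only [hH, h.half]; linarith
  have hHc : 0 ≤ H c := by
    simp only [hH]
    have : ∫ t in c..1, φ t ≤ ∫ t in c..1, φ c :=
      intervalIntegral.integral_mono_on hc2.le (h.int hc1.le hc2.le le_rfl)
        intervalIntegrable_const fun x hx => hmax (show x ∈ Icc (1 / 2) 1 from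
          ⟨hc1.le.trans hx.1, hx.2⟩)
    rw [intervalIntegral.integral_const, smul_eq_mul] at this
    linarith
  obtain ⟨α, hα, e⟩ := intermediate_value_Icc hc1.le hHcont ⟨hH0.le, hHc⟩
  have hα1 : 1 / 2 < α := by
    rcases eq_or_lt_of_le hα.1 with e' | e'
    · rw [← e'] at e; linarith
    · exact e'
  refine ⟨α, ⟨hα1, lt_of_le_of_lt hα.2 hc2⟩, ?_, ?_⟩
  · rcases eq_or_lt_of_le hα.2 with e' | e'
    · rw [e']; exact hcpos
    · exact h.sgn α c hα1 e' hc2 hcpos.le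
  · have : (1 - α) * φ α - ∫ t in α..1, φ t = 0 := e
    linarith

lemma Uni.unique {α β : ℝ} (hα : α ∈ Ioo (1 / 2 : ℝ) 1) (hβ : β ∈ Ioo (1 / 2 : ℝ) 1)
    (htβ : 0 < φ β) (hra : (1 - α) * φ α = ∫ x in α..1, φ x)
    (hrb : (1 - β) * φ β = ∫ x in β..1, φ x) : ¬ α < β := by
  intro hab
  have hm := h.strictMono hβ htβ hrb
  have e1 : ∫ x in α..1, φ x = (∫ x in α..β, φ x) + ∫ x in β..1, φ x :=
    (intervalIntegral.integral_add_adjacent_intervals (h.int hα.1.le hab.le hβ.2.le)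
      (h.int hβ.1.le hβ.2.le le_rfl)).symm
  have e2 : ∫ x in α..β, φ α ≤ ∫ x in α..β, φ x :=
    intervalIntegral.integral_mono_on hab.le intervalIntegrable_const
      (h.int hα.1.le hab.le hβ.2.le) fun x hx =>
        hm.monotoneOn ⟨hα.1.le, hab.le⟩ ⟨hα.1.le.trans hx.1, hx.2⟩ hx.1
  rw [intervalIntegral.integral_const, smul_eq_mul] at e2
  have e3 : φ α < φ β := hm ⟨hα.1.le, hab.le⟩ ⟨hβ.1.le, le_rfl⟩ hab
  have e4 := mul_lt_mul_of_pos_left e3 (show 0 < 1 - β by linarith [hβ.2])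
  nlinarith

lemma Uni.existsUnique (hI : 0 < ∫ x in (1 / 2 : ℝ)..1, φ x) :
    ∃! α, α ∈ Ioo (1 / 2 : ℝ) 1 ∧ 0 < φ α ∧ (1 - α) * φ α = ∫ x in α..1, φ x := by
  obtain ⟨α, hα, ht, hr⟩ := h.exists_root hI
  refine ⟨α, ⟨hα, ht, hr⟩, ?_⟩
  rintro β ⟨hβ, htβ, hrb⟩
  rcases lt_trichotomy α β with e | e | e
  · exact absurd e (h.unique hα hβ htβ hr hrb)
  · exact e.symm
  · exact absurd e (h.unique hβ hα ht hrb hr)

end Pool.Agent.Q82.KR
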