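import Pool.Agent.Q82.KR.Low

set_option autoImplicit false

/-! # The sharp bounds -/

namespace Pool.Agent.Q82.KR

open Real Set MeasureTheory Filter Topology

open Q287.ISD (lam)

/-- the projection of the line to `[1 - α, α]` -/
noncomputable def cl (α x : ℝ) : ℝ := max (1 - α) (min α x)

lemma cl_symm {α : ℝ} (hα : 1 / 2 < α) (x : ℝ) : cl α (1 - x) = 1 - cl α x := by
  unfold cl
  simp only [max_def, min_def]
  split_ifs <;> linarith

lemma cl_mem {α : ℝ} (hα : 1 / 2 < α) (x : ℝ) : cl α x ∈ Icc (1 - α) α :=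
  ⟨le_max_left _ _, max_le (by linarith) (min_le_left _ _)⟩

lemma cl_of_mem {α x : ℝ} (hx : x ∈ Icc (1 - α) α) : cl α x = x := by
  unfold cl; rw [min_eq_right hx.2, max_eq_right hx.1]

lemma cl_of_ge {α x : ℝ} (hα : 1 / 2 < α) (hx : α ≤ x) : cl α x = α := by
  unfold cl; rw [min_eq_left hx, max_eq_right (by linarith)]

lemma cl_mono (α : ℝ) : Monotone (cl α) := fun _ _ h => max_le_max le_rfl (min_le_min le_rfl h)

lemma cl_cont (α : ℝ) : Continuous (cl α) := continuous_const.max (continuous_const.min continuous_id)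

variable {k n : ℕ} (hk : 2 ≤ k) (hn : 1 ≤ n) {α : ℝ} (hα : α ∈ Ioo (1 / 2 : ℝ) 1)

/-- the projection of `φ` to the monotone functions -/
noncomputable def GG (k n : ℕ) (α x : ℝ) : ℝ := φ k n (cl α x)

include hα in
lemma GG_symm (x : ℝ) : GG k n α (1 - x) = -GG k n α x := by
  unfold GG; rw [cl_symm hα.1, φ_symm]

include hk hα in
lemma GG_cont : Continuous (GG k n α) := by
  apply ContinuousOn.comp_continuous (φ_cont hk) (cl_cont α)
  intro x
  have := cl_mem hα.1 x
  exact ⟨by linarith [this.1, hα.2], by linarith [this.2, hα.2]⟩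

include hk hn hα in
lemma GG_mono (ht : 0 < φ k n α) (hr : (1 - α) * φ k n α = ∫ x in α..1, φ k n x) :
    Monotone (GG k n α) := by
  have hs := ((uni_φ hk hn).strictMono hα ht hr).monotoneOn
  have key : ∀ x y, x ∈ Icc (1 - α) α → y ∈ Icc (1 - α) α → x ≤ y → φ k n x ≤ φ k n y := by
    intro x y hx hy hxy
    have pos : ∀ z, z ∈ Icc (1 / 2) α → 0 ≤ φ k n z := by
      intro z hz
      have := hs (show (1 / 2 : ℝ) ∈ Icc (1 / 2) α from ⟨le_rfl, hα.1.le⟩) hz hz.1
      rwa [φ_half] at this
    rcases le_total (1 / 2) x with h1 | h1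
    · exact hs ⟨h1, hx.2⟩ ⟨h1.trans hxy, hy.2⟩ hxy
    · have ex : φ k n x = -φ k n (1 - x) := by rw [φ_symm, neg_neg]
      rcases le_total (1 / 2) y with h2 | h2
      · have a := pos y ⟨h2, hy.2⟩
        have b := pos (1 - x) ⟨by linarith, by linarith [hx.1]⟩
        rw [ex]; linarith
      · have ey : φ k n y = -φ k n (1 - y) := by rw [φ_symm, neg_neg]
        have := hs (show 1 - y ∈ Icc (1 / 2) α from ⟨by linarith, by linarith [hy.1]⟩)
          (show 1 - x ∈ Icc (1 / 2) α from ⟨by linarith, by linarith [hx.1]⟩) (by linarith)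
        rw [ex, ey]; linarith
  intro x y hxy
  exact key _ _ (cl_mem hα.1 x) (cl_mem hα.1 y) (cl_mono α hxy)

include hα in
lemma GG_mid {x : ℝ} (h1 : 1 / 2 ≤ x) (h2 : x ≤ α) : GG k n α x = φ k n x := by
  unfold GG; rw [cl_of_mem ⟨by linarith [hα.1], h2⟩]

include hα in
lemma GG_top {x : ℝ} (h : α ≤ x) : GG k n α x = φ k n α := by
  unfold GG; rw [cl_of_ge hα.1 h]

include hk in
lemma φ_int {p q : ℝ} (hp : 0 ≤ p) (hpq : p ≤ q) (hq : q ≤ 1) :
    IntervalIntegrable (φ k n) volume p q :=
  ((φ_cont hk).mono (by rw [uIcc_of_le hpq]; exact Icc_subset_Icc hp hq)).intervalIntegrable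

include hk hα in
/-- integrals of products with `φ - G` over `(1/2, 1)` -/
lemma int_h (c : ℝ → ℝ) (hc : Continuous c) :
    ∫ x in (1 / 2 : ℝ)..1, c x * (φ k n x - GG k n α x) =
      ∫ x in α..1, c x * (φ k n x - φ k n α) := by
  have i : ∀ p q : ℝ, 0 ≤ p → p ≤ q → q ≤ 1 →
      IntervalIntegrable (fun x => c x * (φ k n x - GG k n α x)) volume p q := fun p q hp hpq hq =>
    ((φ_int hk hp hpq hq).sub ((GG_cont hk hα).intervalIntegrable _ _)).continuousOn_mul
      hc.continuousOn
  rw [← intervalIntegral.integral_add_adjacent_intervals (b := α)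
    (i _ _ (by norm_num) hα.1.le hα.2.le) (i _ _ (by linarith [hα.1]) hα.2.le le_rfl)]
  have e1 : ∫ x in (1 / 2 : ℝ)..α, c x * (φ k n x - GG k n α x) = 0 := by
    rw [intervalIntegral.integral_congr (g := fun _ => (0 : ℝ))]
    · simp
    · intro x hx
      rw [uIcc_of_le hα.1.le] at hx
      simp only
      rw [GG_mid hα hx.1 hx.2, sub_self, mul_zero]
  have e2 : ∫ x in α..1, c x * (φ k n x - GG k n α x) = ∫ x in α..1, c x * (φ k n x - φ k n α) := by
    apply intervalIntegral.integral_congr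
    intro x hx
    rw [uIcc_of_le hα.2.le] at hx
    simp only
    rw [GG_top hα hx.1]
  rw [e1, e2, zero_add]

include hk hα in
lemma int_root (hr : (1 - α) * φ k n α = ∫ x in α..1, φ k n x) :
    ∫ x in α..1, (φ k n x - φ k n α) = 0 := by
  rw [intervalIntegral.integral_sub (φ_int hk (by linarith [hα.1]) hα.2.le le_rfl)
    intervalIntegrable_const, intervalIntegral.integral_const, smul_eq_mul, ← hr]
  ring

include hk in
lemma φ_bdd : ∃ C, ∀ x ∈ Icc (0 : ℝ) 1, |φ k n x| ≤ C := by
  have h := isCompact_Icc.exists_bound_of_continuousOn (φ_cont (n := n) hk)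
  simpa [Real.norm_eq_abs] using h

lemma measurable_φ (k n : ℕ) : Measurable (φ k n) :=
  (measurable_f k n).sub ((measurable_f k n).comp (measurable_const.sub measurable_id))

lemma integrable_cont {g : ℝ → ℝ} (hg : Continuous g) : Integrable g lam := by
  have : IntegrableOn g (Ioo (0 : ℝ) 1) :=
    (hg.continuousOn.integrableOn_Icc (a := (0 : ℝ)) (b := 1)).mono_set Ioo_subset_Icc_self
  exact this

include hk in
lemma integrable_mul_φ {q : ℝ → ℝ} (hq : Integrable q lam) :
    Integrable (fun x => q x * φ k n x) lam := by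
  obtain ⟨C, hC⟩ := φ_bdd (n := n) hk
  exact integrable_mul_of_bound hq (measurable_φ k n) hC

lemma integrable_mul_cont {q g : ℝ → ℝ} (hq : Integrable q lam) (hg : Continuous g) :
    Integrable (fun x => q x * g x) lam := by
  obtain ⟨C, hC⟩ := isCompact_Icc.exists_bound_of_continuousOn (hg.continuousOn (s := Icc (0 : ℝ) 1))
  simp only [Real.norm_eq_abs] at hC
  exact integrable_mul_of_bound hq hg.measurable hC

include hk hn hα in
lemma ineq_GG (ht : 0 < φ k n α) (hr : (1 - α) * φ k n α = ∫ x in α..1, φ k n x)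
    (q : ℝ → ℝ) (hq : MonotoneOn q (Ioo 0 1)) (hqi : Integrable q lam) :
    ∫ x in Ioo (0 : ℝ) 1, q x * φ k n x ≤ ∫ x in Ioo (0 : ℝ) 1, q x * GG k n α x := by
  have i1 : Integrable (fun x => q x * φ k n x) lam := integrable_mul_φ hk hqi
  have i2 : Integrable (fun x => q x * GG k n α x) lam := integrable_mul_cont hqi (GG_cont hk hα)
  have i3 : Integrable (fun x => q x * (φ k n x - GG k n α x)) lam := by
    refine (i1.sub i2).congr (Eventually.of_forall fun x => ?_)
    simp only [Pi.sub_apply]; ring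
  have e : ∫ x in Ioo (0 : ℝ) 1, q x * (φ k n x - GG k n α x) =
      (∫ x in Ioo (0 : ℝ) 1, q x * φ k n x) - ∫ x in Ioo (0 : ℝ) 1, q x * GG k n α x := by
    rw [← integral_sub i1 i2]
    refine integral_congr_ae (Eventually.of_forall fun x => ?_)
    simp only; ring
  obtain ⟨x₁, hx₁, c1, c2⟩ := (uni_φ hk hn).crossing hα ht hr
  have h := crossing_ineq (h := fun x => φ k n x - GG k n α x) (q := q)
    (fun x => by rw [φ_symm, GG_symm hα]; ring)
    (x₁ := x₁) ⟨by linarith [hx₁.1, hα.1], hx₁.2⟩ ?_ ?_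
    ((φ_int hk (by norm_num) (by norm_num) le_rfl).sub ((GG_cont hk hα).intervalIntegrable _ _))
    ?_ hq i3
  · linarith
  · intro x h1 h2
    rcases le_total x α with h3 | h3
    · rw [GG_mid hα h1.le h3, sub_self]
    · rw [GG_top hα h3]
      linarith [c1 x ⟨h3, h2.le⟩]
  · intro x h1 h2
    rw [GG_top hα (by linarith [hx₁.1])]
    linarith [c2 x ⟨h1.le, h2⟩]
  · have h3 := int_h (n := n) hk hα (fun _ => 1) continuous_const
    simp only [one_mul] at h3
    rw [h3, int_root hk hα hr]

include hk hα in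
lemma int_GG_φ (hr : (1 - α) * φ k n α = ∫ x in α..1, φ k n x) :
    ∫ x in Ioo (0 : ℝ) 1, GG k n α x * φ k n x = ∫ x in Ioo (0 : ℝ) 1, GG k n α x ^ 2 := by
  have hG := GG_cont (n := n) hk hα
  have i1 : Integrable (fun x => GG k n α x * φ k n x) lam := integrable_mul_φ hk (integrable_cont hG)
  have i2 : Integrable (fun x => GG k n α x ^ 2) lam := integrable_cont (hG.pow 2)
  have i3 : Integrable (fun x => GG k n α x * (φ k n x - GG k n α x)) lam := by
    refine (i1.sub i2).congr (Eventually.of_forall fun x => ?_)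
    simp only [Pi.sub_apply]; ring
  have e : ∫ x in Ioo (0 : ℝ) 1, GG k n α x * (φ k n x - GG k n α x) =
      (∫ x in Ioo (0 : ℝ) 1, GG k n α x * φ k n x) - ∫ x in Ioo (0 : ℝ) 1, GG k n α x ^ 2 := by
    rw [← integral_sub i1 i2]
    refine integral_congr_ae (Eventually.of_forall fun x => ?_)
    simp only; ring
  have e2 := pairing (g := fun x => φ k n x - GG k n α x) i3
    (fun x => by rw [φ_symm, GG_symm hα]; ring)
  have e3 := int_h (n := n) hk hα (fun x => GG k n α x - GG k n α (1 - x))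
    (hG.sub (hG.comp (continuous_const.sub continuous_id)))
  have e4 : ∫ x in α..1, (GG k n α x - GG k n α (1 - x)) * (φ k n x - φ k n α) =
      ∫ x in α..1, (2 * φ k n α) * (φ k n x - φ k n α) := by
    apply intervalIntegral.integral_congr
    intro x hx
    rw [uIcc_of_le hα.2.le] at hx
    simp only
    rw [GG_symm hα, GG_top hα hx.1]; ring
  rw [intervalIntegral.integral_const_mul, int_root hk hα hr, mul_zero] at e4
  rw [e2, e3, e4] at e
  linarith

include hk hα in
lemma int_GG_sq : ∫ x in Ioo (0 : ℝ) 1, GG k n α x ^ 2 =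
    2 * ((∫ x in (1 / 2 : ℝ)..α, φ k n x ^ 2) + (1 - α) * φ k n α ^ 2) := by
  have hG := GG_cont (n := n) hk hα
  have i2 : Integrable (fun x => GG k n α x * GG k n α x) lam := integrable_cont (hG.mul hG)
  have e2 := pairing i2 (GG_symm (k := k) (n := n) hα)
  have e0 : ∫ x in Ioo (0 : ℝ) 1, GG k n α x ^ 2 = ∫ x in Ioo (0 : ℝ) 1, GG k n α x * GG k n α x := by
    refine integral_congr_ae (Eventually.of_forall fun x => ?_)
    simp only; ring
  have hc : Continuous fun x => (GG k n α x - GG k n α (1 - x)) * GG k n α x :=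
    (hG.sub (hG.comp (continuous_const.sub continuous_id))).mul hG
  rw [e0, e2, ← intervalIntegral.integral_add_adjacent_intervals (b := α)
    (hc.intervalIntegrable _ _) (hc.intervalIntegrable _ _)]
  have e3 : ∫ x in (1 / 2 : ℝ)..α, (GG k n α x - GG k n α (1 - x)) * GG k n α x =
      ∫ x in (1 / 2 : ℝ)..α, 2 * φ k n x ^ 2 := by
    apply intervalIntegral.integral_congr
    intro x hx
    rw [uIcc_of_le hα.1.le] at hx
    simp only
    rw [GG_symm hα, GG_mid hα hx.1 hx.2]; ring
  have e4 : ∫ x in α..1, (GG k n α x - GG k n α (1 - x)) * GG k n α x =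
      ∫ x in α..1, 2 * φ k n α ^ 2 := by
    apply intervalIntegral.integral_congr
    intro x hx
    rw [uIcc_of_le hα.2.le] at hx
    simp only
    rw [GG_symm hα, GG_top hα hx.1]; ring
  rw [e3, e4, intervalIntegral.integral_const_mul, intervalIntegral.integral_const, smul_eq_mul]
  ring

include hk hn hα in
/-- the value in the first case -/
theorem isLUB_pos (ht : 0 < φ k n α) (hr : (1 - α) * φ k n α = ∫ x in α..1, φ k n x) :
    IsLUB (values k n)
      (√(((∫ x in (1 / 2 : ℝ)..α, φ k n x ^ 2) + (1 - α) * φ k n α ^ 2) / 2)) := by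
  have hG := GG_cont (n := n) hk hα
  set A := (∫ x in (1 / 2 : ℝ)..α, φ k n x ^ 2) + (1 - α) * φ k n α ^ 2 with hA
  have hsq : ∫ x in Ioo (0 : ℝ) 1, GG k n α x ^ 2 = 2 * A := int_GG_sq hk hα
  have hA0 : 0 < A := by
    have h1 : 0 ≤ ∫ x in (1 / 2 : ℝ)..α, φ k n x ^ 2 :=
      intervalIntegral.integral_nonneg hα.1.le fun x _ => sq_nonneg _
    have h2 : 0 < (1 - α) * φ k n α ^ 2 := mul_pos (by linarith [hα.2]) (by positivity)
    linarith
  have eN : √(A / 2) = √(2 * A) / 2 := by
    rw [show A / 2 = (2 * A) / 2 ^ 2 by ring, Real.sqrt_div (by positivity),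
      Real.sqrt_sq (by norm_num)]
  rw [eN]
  constructor
  · intro v hv
    have := value_le hk hG (ineq_GG hk hn hα ht hr) hv
    rwa [hsq] at this
  · intro B hB
    -- the approximating quantile functions
    set ℓ : ℝ → ℝ := fun x => x - 1 / 2 with hℓ
    have hℓc : Continuous ℓ := continuous_id.sub continuous_const
    have hval : ∀ ε : ℝ, 0 < ε →
        (∫ x in Ioo (0 : ℝ) 1, (GG k n α x + ε * ℓ x) * φ k n x) / 2 /
          √(∫ x in Ioo (0 : ℝ) 1, (GG k n α x + ε * ℓ x) ^ 2) ≤ B := by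
      intro ε hε
      apply hB
      apply value_mem hk (p := fun x => GG k n α x + ε * ℓ x) (hG.add (continuous_const.mul hℓc))
      · intro x y hxy
        have a := GG_mono hk hn hα ht hr hxy.le
        have b : ε * ℓ x < ε * ℓ y := mul_lt_mul_of_pos_left (by simp only [hℓ]; linarith) hε
        simp only
        linarith
      · intro x
        simp only [hℓ]
        rw [GG_symm hα]; ring
    have eN' : ∀ ε : ℝ, ∫ x in Ioo (0 : ℝ) 1, (GG k n α x + ε * ℓ x) * φ k n x =
        2 * A + ε * ∫ x in Ioo (0 : ℝ) 1, ℓ x * φ k n x := by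
      intro ε
      have i1 : Integrable (fun x => GG k n α x * φ k n x) lam :=
        integrable_mul_φ hk (integrable_cont hG)
      have i2 : Integrable (fun x => ε * (ℓ x * φ k n x)) lam :=
        (integrable_mul_φ hk (integrable_cont hℓc)).const_mul ε
      rw [← hsq, ← int_GG_φ hk hα hr, ← integral_const_mul, ← integral_add i1 i2]
      refine integral_congr_ae (Eventually.of_forall fun x => ?_)
      simp only; ring
    have eD' : ∀ ε : ℝ, ∫ x in Ioo (0 : ℝ) 1, (GG k n α x + ε * ℓ x) ^ 2 =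
        2 * A + ε * (2 * ∫ x in Ioo (0 : ℝ) 1, GG k n α x * ℓ x) +
          ε ^ 2 * ∫ x in Ioo (0 : ℝ) 1, ℓ x ^ 2 := by
      intro ε
      have i1 : Integrable (fun x => GG k n α x ^ 2) lam := integrable_cont (hG.pow 2)
      have i2 : Integrable (fun x => (ε * 2) * (GG k n α x * ℓ x)) lam :=
        (integrable_cont (hG.mul hℓc)).const_mul _
      have i3 : Integrable (fun x => ε ^ 2 * ℓ x ^ 2) lam :=
        (integrable_cont (hℓc.pow 2)).const_mul _
      have i12 : Integrable (fun x => GG k n α x ^ 2 + (ε * 2) * (GG k n α x * ℓ x)) lam :=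
        i1.add i2
      rw [← hsq, ← mul_assoc, ← integral_const_mul, ← integral_const_mul, ← integral_add i1 i2,
        ← integral_add i12 i3]
      refine integral_congr_ae (Eventually.of_forall fun x => ?_)
      simp only; ring
    have hlim : Tendsto (fun ε : ℝ =>
        (2 * A + ε * ∫ x in Ioo (0 : ℝ) 1, ℓ x * φ k n x) / 2 /
          √(2 * A + ε * (2 * ∫ x in Ioo (0 : ℝ) 1, GG k n α x * ℓ x) +
          ε ^ 2 * ∫ x in Ioo (0 : ℝ) 1, ℓ x ^ 2)) (𝓝[>] 0)
        (𝓝 ((2 * A + 0 * ∫ x in Ioo (0 : ℝ) 1, ℓ x * φ k n x) / 2 /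
          √(2 * A + 0 * (2 * ∫ x in Ioo (0 : ℝ) 1, GG k n α x * ℓ x) +
          0 ^ 2 * ∫ x in Ioo (0 : ℝ) 1, ℓ x ^ 2))) := by
      apply Tendsto.mono_left _ nhdsWithin_le_nhds
      apply ContinuousAt.tendsto
      apply ContinuousAt.div
      · fun_prop
      · fun_prop
      · apply Real.sqrt_ne_zero'.2
        simp only [zero_mul, add_zero]
        norm_num
        exact hA0
    have h3 := le_of_tendsto hlim (b := B) (by
      filter_upwards [self_mem_nhdsWithin] with ε hε
      have := hval ε hε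
      rwa [eN', eD'] at this)
    have e4 : (2 * A + 0 * ∫ x in Ioo (0 : ℝ) 1, ℓ x * φ k n x) / 2 /
          √(2 * A + 0 * (2 * ∫ x in Ioo (0 : ℝ) 1, GG k n α x * ℓ x) +
          0 ^ 2 * ∫ x in Ioo (0 : ℝ) 1, ℓ x ^ 2) = √(2 * A) / 2 := by
      simp only [zero_mul, add_zero, ne_eq, OfNat.ofNat_ne_zero, not_false_eq_true, zero_pow]
      rw [div_right_comm, Real.div_sqrt]
    rwa [e4] at h3

lemma int_even_pow (j : ℕ) : ∫ x in Ioo (0 : ℝ) 1, (2 * x - 1) ^ (2 * j) = 1 / (2 * j + 1) := by
  rw [Ioo_eq]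
  have h : ∀ x ∈ uIcc (0 : ℝ) 1, HasDerivAt
      (fun x : ℝ => (2 * x - 1) ^ (2 * j + 1) / (2 * (2 * j + 1))) ((2 * x - 1) ^ (2 * j)) x := by
    intro x _
    have d := ((((hasDerivAt_id x).const_mul 2).sub_const 1).pow (2 * j + 1)).div_const
      (2 * (2 * (j : ℝ) + 1))
    refine d.congr_deriv ?_
    simp only [id, Nat.add_sub_cancel, mul_one]
    push_cast
    field_simp
  rw [intervalIntegral.integral_eq_sub_of_hasDerivAt h
    (Continuous.intervalIntegrable (by fun_prop) _ _)]
  have e : (2 * (0 : ℝ) - 1) ^ (2 * j + 1) = -1 := by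
    rw [mul_zero, zero_sub]; exact Odd.neg_one_pow ⟨j, rfl⟩
  rw [e]
  norm_num
  field_simp
  norm_num

include hk hn in
/-- the value in the second case -/
theorem isLUB_zero (hI : ¬ 0 < ∫ x in (1 / 2 : ℝ)..1, φ k n x) : IsLUB (values k n) 0 := by
  have hu := uni_φ hk hn
  push Not at hI
  constructor
  · intro v hv
    obtain ⟨x₀, hx₀, c1, c2⟩ := hu.exists_sign
    have hx1 : x₀ < 1 := by
      rcases eq_or_lt_of_le hx₀.2 with e | e
      · exfalso
        have : 0 < ∫ x in (1 / 2 : ℝ)..1, φ k n x := by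
          apply intervalIntegral.integral_pos (by norm_num) hu.cont
          · intro x hx
            rcases eq_or_lt_of_le hx.2 with e' | e'
            · rw [e', hu.one]
            · exact (c1 x hx.1 (by rw [e]; exact e')).le
          · exact ⟨3 / 4, by norm_num, c1 _ (by norm_num) (by rw [e]; norm_num)⟩
        linarith
      · exact e
    have h := value_le hk (G := fun _ => 0) continuous_const ?_ hv
    · simpa using h
    · intro q hq hqi
      simp only [mul_zero, integral_zero]
      exact crossing_ineq (φ_symm k n) ⟨hx₀.1, hx1⟩ (fun x h1 h2 => (c1 x h1 h2).le)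
        (fun x h1 h2 => (c2 x h1 h2).le) (φ_int hk (by norm_num) (by norm_num) le_rfl) hI hq
        (integrable_mul_φ hk hqi)
  · intro B hB
    obtain ⟨C, hC⟩ := φ_bdd (n := n) hk
    have hC0 : 0 ≤ C := (abs_nonneg _).trans (hC 0 ⟨le_rfl, zero_le_one⟩)
    have hval : ∀ N : ℕ, -(C / √(N + 1)) ≤ B := by
      intro N
      have hc : Continuous fun x : ℝ => (2 * x - 1) ^ (2 * N + 1) := by fun_prop
      have h1 := value_mem (n := n) hk hc
        (fun x y hxy => (Odd.strictMono_pow ⟨N, rfl⟩) (show 2 * x - 1 < 2 * y - 1 by linarith))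
        (fun x => by
          rw [← Odd.neg_pow ⟨N, rfl⟩]; congr 1; ring)
      refine le_trans ?_ (hB h1)
      have e1 : ∫ x in Ioo (0 : ℝ) 1, ((2 * x - 1) ^ (2 * N + 1)) ^ 2 =
          (1 : ℝ) / (4 * (N : ℝ) + 3) := by
        have h2 := int_even_pow (2 * N + 1)
        have h3 : ∀ x : ℝ, ((2 * x - 1) ^ (2 * N + 1)) ^ 2 = (2 * x - 1) ^ (2 * (2 * N + 1)) :=
          fun x => by rw [← pow_mul]; congr 1; ring
        simp only [h3]
        rw [h2]; push_cast; congr 1; ring
      rw [e1]
      have hi : Integrable (fun x : ℝ => (2 * x - 1) ^ (2 * N + 1) * φ k n x) lam :=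
        integrable_mul_φ hk (integrable_cont hc)
      have hj : Integrable (fun x : ℝ => C * (2 * x - 1) ^ (2 * N)) lam :=
        integrable_cont (by fun_prop)
      have e2 : -(C / (2 * N + 1)) ≤
          ∫ x in Ioo (0 : ℝ) 1, (2 * x - 1) ^ (2 * N + 1) * φ k n x := by
        have e3 : ∫ x in Ioo (0 : ℝ) 1, C * (2 * x - 1) ^ (2 * N) = C / (2 * N + 1) := by
          rw [integral_const_mul, int_even_pow]; ring
        rw [← e3, ← integral_neg]
        apply setIntegral_mono_on hj.neg hi measurableSet_Ioo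
        intro x hx
        have b1 := hC x ⟨hx.1.le, hx.2.le⟩
        have b2 : |2 * x - 1| ≤ 1 := by rw [abs_le]; constructor <;> linarith [hx.1, hx.2]
        have b3 : |(2 * x - 1) ^ (2 * N + 1) * φ k n x| ≤ C * (2 * x - 1) ^ (2 * N) := by
          rw [abs_mul, abs_pow, pow_succ]
          have b4 : |2 * x - 1| ^ (2 * N) = (2 * x - 1) ^ (2 * N) := by
            rw [pow_mul, sq_abs, ← pow_mul]
          rw [b4]
          have b5 : 0 ≤ (2 * x - 1) ^ (2 * N) := by rw [pow_mul]; positivity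
          calc (2 * x - 1) ^ (2 * N) * |2 * x - 1| * |φ k n x|
              ≤ (2 * x - 1) ^ (2 * N) * 1 * C := by
                apply mul_le_mul _ b1 (abs_nonneg _) (by positivity)
                exact mul_le_mul_of_nonneg_left b2 b5
            _ = C * (2 * x - 1) ^ (2 * N) := by ring
        have b6 := neg_abs_le ((2 * x - 1) ^ (2 * N + 1) * φ k n x)
        simp only [Pi.neg_apply]
        linarith
      have e5 : √(1 / (4 * (N : ℝ) + 3)) = 1 / √(4 * N + 3) := by
        rw [Real.sqrt_div (by norm_num), Real.sqrt_one]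
      rw [e5, div_div_eq_mul_div, div_one]
      have p1 : (0 : ℝ) < N + 1 := by positivity
      have s1 : √(4 * (N : ℝ) + 3) ≤ 2 * √(N + 1) := by
        rw [show (2 : ℝ) * √(N + 1) = √(4 * (N + 1)) by
          rw [Real.sqrt_mul (by norm_num)]; norm_num]
        exact Real.sqrt_le_sqrt (by linarith)
      have s0 : 0 < √((N : ℝ) + 1) := Real.sqrt_pos.2 p1
      have s2 : √((N : ℝ) + 1) * √(N + 1) = N + 1 := Real.mul_self_sqrt p1.le
      have s3 : 0 ≤ √(4 * (N : ℝ) + 3) := Real.sqrt_nonneg _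
      have t1 : -(C / (2 * N + 1)) / 2 * √(4 * N + 3) ≤
          (∫ x in Ioo (0 : ℝ) 1, (2 * x - 1) ^ (2 * N + 1) * φ k n x) / 2 * √(4 * N + 3) :=
        mul_le_mul_of_nonneg_right (by linarith) s3
      refine le_trans ?_ t1
      have t2 : C / (2 * N + 1) / 2 * √(4 * N + 3) ≤ C / √(N + 1) := by
        calc C / (2 * N + 1) / 2 * √(4 * N + 3) ≤ C / (2 * N + 1) / 2 * (2 * √(N + 1)) :=
              mul_le_mul_of_nonneg_left s1 (by positivity)
          _ = C * √(N + 1) / (2 * N + 1) := by ring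
          _ ≤ C * √(N + 1) / (N + 1) :=
              div_le_div_of_nonneg_left (by positivity) p1 (by linarith [p1])
          _ = C / √(N + 1) := by
              rw [div_eq_div_iff p1.ne' s0.ne']
              calc C * √(↑N + 1) * √(↑N + 1) = C * (√(↑N + 1) * √(↑N + 1)) := by ring
                _ = C * (↑N + 1) := by rw [s2]
      have t3 : -(C / (2 * N + 1)) / 2 * √(4 * N + 3) = -(C / (2 * N + 1) / 2 * √(4 * N + 3)) := by
        ring
      rw [t3]
      linarith
    have hlim : Tendsto (fun N : ℕ => -(C / √((N : ℝ) + 1))) atTop (𝓝 (-0)) := by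
      apply Tendsto.neg
      apply Tendsto.div_atTop tendsto_const_nhds
      exact Real.tendsto_sqrt_atTop.comp (tendsto_natCast_atTop_atTop.atTop_add tendsto_const_nhds)
    rw [neg_zero] at hlim
    exact le_of_tendsto' hlim hval

end Pool.Agent.Q82.KR
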