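import Pool.Agent.Q82.KR.Psi
import Pool.Agent.Q82.KR.Abs

set_option autoImplicit false

/-! # The record densities -/

namespace Pool.Agent.Q82.KR

open Real Set MeasureTheory Filter Topology

/-- the density of the `n`-th `k`-th record value of the uniform distribution -/
noncomputable def f (k n : ℕ) (x : ℝ) : ℝ :=
  (k : ℝ) ^ (n + 1) / (n.factorial : ℝ) * (-Real.log (1 - x)) ^ n * (1 - x) ^ (k - 1)

/-- `f(x) - f(1-x)` -/
noncomputable def φ (k n : ℕ) (x : ℝ) : ℝ := f k n x - f k n (1 - x)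

lemma φ_symm (k n : ℕ) (x : ℝ) : φ k n (1 - x) = -φ k n x := by
  unfold φ; rw [sub_sub_cancel]; ring

/-- continuity of `y ↦ (-log y) ^ j y ^ (p+1)` on `[0, ∞)` -/
lemma cont_logpow (j p : ℕ) : ContinuousOn (fun y : ℝ => (-Real.log y) ^ j * y ^ (p + 1)) (Ici 0) := by
  intro y hy
  rcases eq_or_lt_of_le (show (0 : ℝ) ≤ y from hy) with e | e
  · subst e
    rw [← continuousWithinAt_Ioi_iff_Ici]
    unfold ContinuousWithinAt
    have h0 : (fun y : ℝ => (-Real.log y) ^ j * y ^ (p + 1)) 0 = 0 := by simp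
    rw [h0]
    have h1 : Tendsto (fun y : ℝ => (-Real.log y) ^ j * y) (𝓝[>] 0) (𝓝 0) := by
      have t1 : Tendsto (fun y : ℝ => -Real.log y) (𝓝[>] 0) atTop :=
        tendsto_neg_atBot_atTop.comp Real.tendsto_log_nhdsGT_zero
      have t2 := (Real.tendsto_pow_mul_exp_neg_atTop_nhds_zero j).comp t1
      refine t2.congr' ?_
      filter_upwards [self_mem_nhdsWithin] with y hy
      simp only [Function.comp, neg_neg]
      rw [Real.exp_log hy]
    have h2 : Tendsto (fun y : ℝ => y ^ p) (𝓝[>] 0) (𝓝 ((0 : ℝ) ^ p)) :=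
      ((continuous_pow p).tendsto 0).mono_left nhdsWithin_le_nhds
    have h3 := h1.mul h2
    rw [zero_mul] at h3
    refine h3.congr fun y => ?_
    rw [pow_succ]; ring
  · apply ContinuousAt.continuousWithinAt
    have : ContinuousAt (fun y => -Real.log y) y := (Real.continuousAt_log e.ne').neg
    exact (this.pow j).mul (continuousAt_id.pow (p + 1))

lemma cont_logpow' (j p : ℕ) :
    ContinuousOn (fun x : ℝ => (-Real.log (1 - x)) ^ j * (1 - x) ^ (p + 1)) (Iic 1) := by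
  have hc : ContinuousOn (fun x : ℝ => (1 : ℝ) - x) (Iic 1) :=
    (continuous_const.sub continuous_id).continuousOn
  have hm : MapsTo (fun x : ℝ => (1 : ℝ) - x) (Iic 1) (Ici 0) := fun x hx => by
    simp only [mem_Iic] at hx; simp only [mem_Ici]; linarith
  exact (cont_logpow j p).comp hc hm

lemma cont_f {k n : ℕ} (hk : 2 ≤ k) : ContinuousOn (f k n) (Iic 1) := by
  obtain ⟨b, rfl⟩ : ∃ b, k = b + 2 := ⟨k - 2, by omega⟩
  have h := cont_logpow' n b
  have h2 : ContinuousOn (fun x : ℝ => (((b + 2 : ℕ) : ℝ)) ^ (n + 1) / (n.factorial : ℝ) *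
    ((-Real.log (1 - x)) ^ n * (1 - x) ^ (b + 1))) (Iic 1) := continuousOn_const.mul h
  refine h2.congr fun x _ => ?_
  unfold f
  simp only [show b + 2 - 1 = b + 1 by omega]
  ring

lemma φ_cont {k n : ℕ} (hk : 2 ≤ k) : ContinuousOn (φ k n) (Icc 0 1) := by
  apply ContinuousOn.sub
  · exact (cont_f hk).mono fun x hx => hx.2
  · exact (cont_f hk).comp (continuousOn_const.sub continuousOn_id) fun x hx => by
      simp only [mem_Iic, id]; linarith [hx.1]

lemma f_zero {k n : ℕ} (hn : 1 ≤ n) : f k n 0 = 0 := by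
  unfold f
  simp [show n ≠ 0 by omega]

lemma f_one {k n : ℕ} (hk : 2 ≤ k) : f k n 1 = 0 := by
  unfold f
  simp [show k - 1 ≠ 0 by omega]

lemma φ_half (k n : ℕ) : φ k n (1 / 2) = 0 := by
  unfold φ; norm_num

lemma φ_one {k n : ℕ} (hk : 2 ≤ k) (hn : 1 ≤ n) : φ k n 1 = 0 := by
  unfold φ; rw [sub_self, f_one hk, f_zero hn, sub_zero]

lemma φ_eq (a b : ℕ) (x : ℝ) : φ (b + 2) (a + 1) x =
    (((b + 2 : ℕ) : ℝ)) ^ (a + 1 + 1) / ((a + 1).factorial : ℝ) * ψ a b (1 - x) := by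
  unfold φ f ψ L M
  rw [show b + 2 - 1 = b + 1 by omega]
  ring

lemma uni_φ {k n : ℕ} (hk : 2 ≤ k) (hn : 1 ≤ n) : Uni (φ k n) := by
  obtain ⟨b, rfl⟩ : ∃ b, k = b + 2 := ⟨k - 2, by omega⟩
  obtain ⟨a, rfl⟩ : ∃ a, n = a + 1 := ⟨n - 1, by omega⟩
  have hC : 0 < (((b + 2 : ℕ) : ℝ)) ^ (a + 1 + 1) / ((a + 1).factorial : ℝ) := by positivity
  refine ⟨(φ_cont hk).mono (Icc_subset_Icc (by norm_num) le_rfl), φ_half _ _, φ_one hk hn, ?_, ?_⟩
  · intro x₁ x₂ h1 h12 h2 h
    rw [φ_eq] at h ⊢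
    have := ψ_S1 a b (y₁ := 1 - x₂) (y₂ := 1 - x₁) (by linarith) (by linarith) (by linarith)
      ((mul_nonneg_iff_of_pos_left hC).1 h)
    positivity
  · intro x₁ x₂ x₃ h1 h12 h23 h3 h
    rw [φ_eq] at h
    rw [φ_eq, φ_eq, φ_eq]
    have := ψ_S3 a b (y₁ := 1 - x₃) (y₂ := 1 - x₂) (y₃ := 1 - x₁) (by linarith) (by linarith)
      (by linarith) (by linarith) ((mul_pos_iff_of_pos_left hC).1 h)
    rw [min_lt_iff] at this ⊢
    rcases this with t | t
    · right; exact mul_lt_mul_of_pos_left t hC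
    · left; exact mul_lt_mul_of_pos_left t hC

/-! ### The distribution function -/

/-- `1 - F(x)` -/
noncomputable def Sf (k n : ℕ) (x : ℝ) : ℝ :=
  ∑ j ∈ Finset.range (n + 1), (k : ℝ) ^ j / (j.factorial : ℝ) *
    ((-Real.log (1 - x)) ^ j * (1 - x) ^ k)

lemma cont_Sf {k n : ℕ} (hk : 1 ≤ k) : ContinuousOn (Sf k n) (Iic 1) := by
  obtain ⟨b, rfl⟩ : ∃ b, k = b + 1 := ⟨k - 1, by omega⟩
  unfold Sf
  apply continuousOn_finsetSum
  intro j _
  exact continuousOn_const.mul (cont_logpow' j b)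

lemma hasDerivAt_Sf {k : ℕ} (hk : 1 ≤ k) (n : ℕ) {x : ℝ} (hx : x < 1) :
    HasDerivAt (Sf k n) (-f k n x) x := by
  have hz : 0 < 1 - x := by linarith
  have hlog : HasDerivAt (fun x => -Real.log (1 - x)) (1 / (1 - x)) x := hasDerivAt_M hx
  have hpow : HasDerivAt (fun x : ℝ => (1 - x) ^ k) (-(k * (1 - x) ^ (k - 1))) x := by
    have := ((hasDerivAt_id x).const_sub 1).pow k
    refine this.congr_deriv ?_
    simp
  obtain ⟨b, rfl⟩ : ∃ b, k = b + 1 := ⟨k - 1, by omega⟩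
  induction n with
  | zero =>
    have : Sf (b + 1) 0 = fun x : ℝ => (1 - x) ^ (b + 1) := by
      funext x; unfold Sf; simp
    rw [this]
    refine hpow.congr_deriv ?_
    unfold f; simp
  | succ n ih =>
    have e : Sf (b + 1) (n + 1) = fun x : ℝ => Sf (b + 1) n x +
        (((b + 1 : ℕ) : ℝ)) ^ (n + 1) / ((n + 1).factorial : ℝ) *
        ((-Real.log (1 - x)) ^ (n + 1) * (1 - x) ^ (b + 1)) := by
      funext x; unfold Sf; rw [Finset.sum_range_succ]
    rw [e]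
    have d := ih.add (((hlog.pow (n + 1)).mul hpow).const_mul
      ((((b + 1 : ℕ) : ℝ)) ^ (n + 1) / ((n + 1).factorial : ℝ)))
    refine d.congr_deriv ?_
    unfold f
    simp only [Nat.add_sub_cancel, Pi.pow_apply]
    rw [Nat.factorial_succ]
    push_cast
    field_simp
    ring

lemma Sf_one {k n : ℕ} (hk : 1 ≤ k) : Sf k n 1 = 0 := by
  unfold Sf
  apply Finset.sum_eq_zero
  intro j _
  simp [show k ≠ 0 by omega]

lemma Sf_zero (k n : ℕ) : Sf k n 0 = 1 := by
  unfold Sf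
  rw [Finset.sum_range_succ']
  simp

lemma integral_f {k n : ℕ} (hk : 2 ≤ k) {p q : ℝ} (hpq : p ≤ q) (hq : q ≤ 1) :
    ∫ x in p..q, f k n x = Sf k n p - Sf k n q := by
  have hc : ContinuousOn (Sf k n) (Icc p q) :=
    (cont_Sf (by omega)).mono fun x hx => hx.2.trans hq
  have hi : IntervalIntegrable (fun x => -f k n x) volume p q := by
    apply ContinuousOn.intervalIntegrable
    rw [uIcc_of_le hpq]
    exact ((cont_f hk).mono fun x hx => hx.2.trans hq).neg
  have h := intervalIntegral.integral_eq_sub_of_hasDerivAt_of_le hpq hc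
    (fun x hx => hasDerivAt_Sf (by omega) n (lt_of_lt_of_le hx.2 hq)) hi
  rw [intervalIntegral.integral_neg] at h
  linarith

lemma Sf_half (k n : ℕ) : Sf k n (1 / 2) =
    (∑ j ∈ Finset.range (n + 1), (k * Real.log 2) ^ j / (j.factorial : ℝ)) / 2 ^ k := by
  unfold Sf
  rw [Finset.sum_div]
  apply Finset.sum_congr rfl
  intro j _
  have e : -Real.log (1 - 1 / 2) = Real.log 2 := by
    rw [show (1 : ℝ) - 1 / 2 = 2⁻¹ by norm_num, Real.log_inv, neg_neg]
  rw [e, show (1 : ℝ) - 1 / 2 = 1 / 2 by norm_num, mul_pow, one_div, inv_pow]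
  field_simp

lemma integral_φ {k n : ℕ} (hk : 2 ≤ k) : ∫ x in (1 / 2 : ℝ)..1, φ k n x =
    2 * ((∑ j ∈ Finset.range (n + 1), (k * Real.log 2) ^ j / (j.factorial : ℝ)) / 2 ^ k) - 1 := by
  have i1 : IntervalIntegrable (f k n) volume (1 / 2) 1 := by
    apply ContinuousOn.intervalIntegrable
    rw [uIcc_of_le (by norm_num)]
    exact (cont_f hk).mono fun x hx => hx.2
  have i2 : IntervalIntegrable (fun x => f k n (1 - x)) volume (1 / 2) 1 := by
    apply ContinuousOn.intervalIntegrable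
    rw [uIcc_of_le (by norm_num)]
    exact (cont_f hk).comp (continuousOn_const.sub continuousOn_id) fun x hx => by
      simp only [mem_Iic, id]; linarith [hx.1]
  have e : ∫ x in (1 / 2 : ℝ)..1, f k n (1 - x) = ∫ x in (0 : ℝ)..(1 / 2), f k n x := by
    rw [intervalIntegral.integral_comp_sub_left]
    norm_num
  have : ∫ x in (1 / 2 : ℝ)..1, φ k n x =
      (∫ x in (1 / 2 : ℝ)..1, f k n x) - ∫ x in (1 / 2 : ℝ)..1, f k n (1 - x) :=
    intervalIntegral.integral_sub i1 i2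
  rw [this, e, integral_f hk (by norm_num) le_rfl, integral_f hk (by norm_num) (by norm_num),
    Sf_one (by omega), Sf_zero, Sf_half]
  ring

lemma integral_φ_pos_iff {k n : ℕ} (hk : 2 ≤ k) : 0 < ∫ x in (1 / 2 : ℝ)..1, φ k n x ↔
    (2 : ℝ) ^ (k - 1) < ∑ j ∈ Finset.range (n + 1), (k * Real.log 2) ^ j / (j.factorial : ℝ) := by
  rw [integral_φ hk]
  obtain ⟨b, rfl⟩ : ∃ b, k = b + 1 := ⟨k - 1, by omega⟩
  rw [Nat.add_sub_cancel]
  set S := ∑ j ∈ Finset.range (n + 1), ((b + 1 : ℕ) * Real.log 2) ^ j / (j.factorial : ℝ)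
  have e : 2 * (S / 2 ^ (b + 1)) - 1 = (S - 2 ^ b) / 2 ^ b := by
    rw [pow_succ]; field_simp
  rw [e, div_pos_iff_of_pos_right (by positivity), sub_pos]

end Pool.Agent.Q82.KR
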