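import Mathlib

set_option autoImplicit false

/-! # The function `w` for the shape of the projection of the record densities

Elementary inequalities between `L = -log y` and `M = -log (1 - y)` for `0 < y < 1/2`. -/

namespace Pool.Agent.Q82.KR

open Real Set

/-- `-log y` -/
noncomputable def L (y : ℝ) : ℝ := -Real.log y
/-- `-log (1 - y)` -/
noncomputable def M (y : ℝ) : ℝ := -Real.log (1 - y)

lemma L_pos {y : ℝ} (h0 : 0 < y) (h1 : y < 1) : 0 < L y := by
  unfold L; linarith [Real.log_neg h0 h1]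

lemma M_pos {y : ℝ} (h0 : 0 < y) (h1 : y < 1) : 0 < M y := by
  unfold M; linarith [Real.log_neg (show 0 < 1 - y by linarith) (by linarith)]

lemma M_lt_L {y : ℝ} (h0 : 0 < y) (h1 : y < 1 / 2) : M y < L y := by
  unfold M L; linarith [Real.log_lt_log h0 (show y < 1 - y by linarith)]

/-- the basic inequality -/
lemma key_u {u : ℝ} (h0 : 0 < u) (h1 : u < 1) {m D : ℝ} (hm1 : 2 * u / (u + 2) ≤ m) (hm2 : m ≤ u)
    (hD0 : 0 ≤ D) (hD1 : 2 * u * D ≤ 1 - u ^ 2) (hD2 : u * D ^ 2 ≤ (1 - u) ^ 2) :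
    0 < m ^ 2 - u ^ 2 * (m + D) ^ 2 + u * (m + D) * m * D := by
  have hm0 : 0 < m := lt_of_lt_of_le (by positivity) hm1
  have e : m ^ 2 - u ^ 2 * (m + D) ^ 2 + u * (m + D) * m * D =
      m ^ 2 * (1 - u ^ 2) - u * m * D * (2 * u - m) - u * D ^ 2 * (u - m) := by ring
  rw [e]
  have h3 : u * m * D * (2 * u - m) ≤ m * (2 * u - m) * (1 - u ^ 2) / 2 := by
    have : 0 ≤ m * (2 * u - m) := mul_nonneg hm0.le (by linarith)
    nlinarith
  have h4 : u * D ^ 2 * (u - m) ≤ (1 - u) ^ 2 * (u - m) :=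
    mul_le_mul_of_nonneg_right hD2 (by linarith)
  have h5 : 0 < (1 + u) * m * (3 * m - 2 * u) - 2 * (1 - u) * (u - m) := by
    have ha : 2 * u * (1 - u) / (u + 2) ≤ 3 * m - 2 * u := by
      have : 2 * u * (1 - u) / (u + 2) = 3 * (2 * u / (u + 2)) - 2 * u := by field_simp; ring
      linarith
    have hb : u - m ≤ u ^ 2 / (u + 2) := by
      have : u ^ 2 / (u + 2) = u - 2 * u / (u + 2) := by field_simp; ring
      linarith
    have hc : 0 ≤ 2 * u * (1 - u) / (u + 2) := by
      apply div_nonneg _ (by linarith)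
      exact mul_nonneg (by linarith) (by linarith)
    have hd : (1 + u) * (2 * u / (u + 2)) * (2 * u * (1 - u) / (u + 2)) ≤
        (1 + u) * m * (3 * m - 2 * u) := by
      apply mul_le_mul _ ha hc (by positivity)
      exact mul_le_mul_of_nonneg_left hm1 (by linarith)
    have he : 2 * (1 - u) * (u - m) ≤ 2 * (1 - u) * (u ^ 2 / (u + 2)) :=
      mul_le_mul_of_nonneg_left hb (by linarith)
    have hf : (1 + u) * (2 * u / (u + 2)) * (2 * u * (1 - u) / (u + 2)) -
        2 * (1 - u) * (u ^ 2 / (u + 2)) = 2 * u ^ 3 * (1 - u) / (u + 2) ^ 2 := by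
      field_simp; ring
    have hg : 0 < 2 * u ^ 3 * (1 - u) / (u + 2) ^ 2 := by
      apply div_pos _ (by positivity)
      exact mul_pos (by positivity) (by linarith)
    linarith
  have h6 : m ^ 2 * (1 - u ^ 2) - m * (2 * u - m) * (1 - u ^ 2) / 2 - (1 - u) ^ 2 * (u - m) =
      (1 - u) / 2 * ((1 + u) * m * (3 * m - 2 * u) - 2 * (1 - u) * (u - m)) := by ring
  have h7 : 0 < (1 - u) / 2 * ((1 + u) * m * (3 * m - 2 * u) - 2 * (1 - u) * (u - m)) :=
    mul_pos (by linarith) h5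
  linarith

lemma D_bounds {u : ℝ} (h0 : 0 < u) (h1 : u < 1) :
    0 ≤ -Real.log u ∧ 2 * u * (-Real.log u) ≤ 1 - u ^ 2 ∧
      u * (-Real.log u) ^ 2 ≤ (1 - u) ^ 2 := by
  set D := -Real.log u with hD
  have hD0 : 0 ≤ D := by linarith [Real.log_neg h0 h1]
  have e1 : Real.exp D = 1 / u := by rw [hD, Real.exp_neg, Real.exp_log h0, one_div]
  have e2 : Real.exp (-D) = u := by rw [hD, neg_neg, Real.exp_log h0]
  refine ⟨hD0, ?_, ?_⟩
  · have h := Real.self_le_sinh_iff.2 hD0
    rw [Real.sinh_eq, e1, e2] at h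
    have : 2 * u * ((1 / u - u) / 2) = 1 - u ^ 2 := by field_simp
    nlinarith
  · have h := Real.self_le_sinh_iff.2 (show 0 ≤ D / 2 by linarith)
    have h2 : (D / 2) ^ 2 ≤ Real.sinh (D / 2) ^ 2 := pow_le_pow_left₀ (by linarith) h 2
    have h3 : Real.sinh (D / 2) ^ 2 = (Real.cosh D - 1) / 2 := by
      have h4 := Real.cosh_two_mul (D / 2)
      have h5 := Real.cosh_sq (D / 2)
      rw [show 2 * (D / 2) = D by ring] at h4
      linarith
    rw [h3, Real.cosh_eq, e1, e2] at h2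
    have h6 : u * (4 * (((1 / u + u) / 2 - 1) / 2)) = (1 - u) ^ 2 := by field_simp; ring
    nlinarith

/-- the inequality which gives both the monotonicity of `w` and the sign of `G w` -/
lemma key {y : ℝ} (h0 : 0 < y) (h1 : y < 1 / 2) :
    0 < (1 - y) ^ 2 * M y ^ 2 - y ^ 2 * L y ^ 2 + y * (1 - y) * L y * M y * (L y - M y) := by
  have hz : 0 < 1 - y := by linarith
  set u := y / (1 - y) with hu
  have hu0 : 0 < u := div_pos h0 hz
  have hu1 : u < 1 := by rw [hu, div_lt_one hz]; linarith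
  have e1 : 1 + u = 1 / (1 - y) := by rw [hu]; field_simp; ring
  have eM : M y = Real.log (1 + u) := by
    rw [e1, one_div, Real.log_inv]; rfl
  have eL : L y = Real.log (1 + u) + -Real.log u := by
    rw [← eM, hu, Real.log_div h0.ne' hz.ne']; unfold L M; ring
  obtain ⟨hD0, hD1, hD2⟩ := D_bounds hu0 hu1
  have hm1 : 2 * u / (u + 2) ≤ Real.log (1 + u) := Real.le_log_one_add_of_nonneg hu0.le
  have hm2 : Real.log (1 + u) ≤ u := by
    have := Real.log_le_sub_one_of_pos (show 0 < 1 + u by linarith)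
    linarith
  have hk := key_u hu0 hu1 hm1 hm2 hD0 hD1 hD2
  rw [← eL, ← eM] at hk
  have e3 : -Real.log u = L y - M y := by rw [eL, eM]; ring
  rw [e3] at hk
  have e4 : (1 - y) ^ 2 * M y ^ 2 - y ^ 2 * L y ^ 2 + y * (1 - y) * L y * M y * (L y - M y) =
      (1 - y) ^ 2 * (M y ^ 2 - u ^ 2 * L y ^ 2 + u * L y * M y * (L y - M y)) := by
    rw [hu]; field_simp
  rw [e4]
  exact mul_pos (by positivity) hk

/-- `w = (1 - y) / L + y / M` -/
noncomputable def w (y : ℝ) : ℝ := (1 - y) / L y + y / M y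

lemma hasDerivAt_L {y : ℝ} (h0 : 0 < y) : HasDerivAt L (-(1 / y)) y := by
  have h := (Real.hasDerivAt_log h0.ne').neg
  rw [one_div]
  exact h

lemma hasDerivAt_M {y : ℝ} (h1 : y < 1) : HasDerivAt M (1 / (1 - y)) y := by
  have h := ((hasDerivAt_id y).const_sub 1).log (show (1 : ℝ) - id y ≠ 0 by simp; linarith)
  have h2 := h.neg
  have e : -(-1 / (1 - id y)) = 1 / (1 - y) := by simp [neg_div]
  rw [e] at h2
  exact h2

lemma hasDerivAt_w {y : ℝ} (h0 : 0 < y) (h1 : y < 1) :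
    HasDerivAt w (((1 - y) ^ 2 * M y ^ 2 - y ^ 2 * L y ^ 2 + y * (1 - y) * L y * M y * (L y - M y)) /
      (y * (1 - y) * L y ^ 2 * M y ^ 2)) y := by
  have hL := L_pos h0 h1
  have hM := M_pos h0 h1
  have hz : 0 < 1 - y := by linarith
  have a := (((hasDerivAt_id y).const_sub 1).div (hasDerivAt_L h0) hL.ne').add
    ((hasDerivAt_id y).div (hasDerivAt_M h1) hM.ne')
  refine a.congr_deriv ?_
  field_simp
  simp only [id]
  ring

lemma w_strictMonoOn : StrictMonoOn w (Ioo 0 (1 / 2)) := by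
  apply strictMonoOn_of_deriv_pos (convex_Ioo _ _)
  · intro y hy
    exact (hasDerivAt_w hy.1 (by linarith [hy.2])).continuousAt.continuousWithinAt
  · intro y hy
    rw [interior_Ioo] at hy
    rw [(hasDerivAt_w hy.1 (by linarith [hy.2])).deriv]
    have h1 := L_pos hy.1 (show y < 1 by linarith [hy.2])
    have h2 := M_pos hy.1 (show y < 1 by linarith [hy.2])
    have h3 : 0 < 1 - y := by linarith [hy.2]
    have h4 := hy.1
    exact div_pos (key hy.1 hy.2) (by positivity)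

end Pool.Agent.Q82.KR
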