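import Pool.Agent.Q82.KR.Prob

set_option autoImplicit false

/-! # Laws with given quantile function, and the single crossing inequality -/

namespace Pool.Agent.Q82.KR

open Real Set MeasureTheory Filter Topology

open Q287.ISD (lam)

lemma Ioo_eq (g : ℝ → ℝ) : ∫ x in Ioo (0 : ℝ) 1, g x = ∫ x in (0 : ℝ)..1, g x := by
  rw [← integral_Ioc_eq_integral_Ioo, ← intervalIntegral.integral_of_le (by norm_num)]

lemma refl_int (g : ℝ → ℝ) : ∫ x in Ioo (0 : ℝ) 1, g (1 - x) = ∫ x in Ioo (0 : ℝ) 1, g x := by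
  rw [Ioo_eq, Ioo_eq, intervalIntegral.integral_comp_sub_left]
  norm_num

lemma map_refl_lam : lam.map (fun x : ℝ => 1 - x) = lam := by
  have h0 : MeasurePreserving (fun x : ℝ => 1 - x) volume volume :=
    ⟨measurable_const.sub measurable_id, Measure.map_sub_left_eq_self volume 1⟩
  have h := h0.restrict_preimage (s := Ioo (0 : ℝ) 1) measurableSet_Ioo
  have e : (fun x : ℝ => 1 - x) ⁻¹' Ioo (0 : ℝ) 1 = Ioo 0 1 := by
    ext x; simp only [mem_preimage, mem_Ioo]; constructor <;> rintro ⟨a, b⟩ <;> constructor <;> linarith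
  rw [e] at h
  exact h.map_eq

lemma value_mem {k n : ℕ} (hk : 2 ≤ k) {p : ℝ → ℝ} (hc : Continuous p) (hm : StrictMono p)
    (hodd : ∀ x, p (1 - x) = -p x) :
    (∫ x in Ioo (0 : ℝ) 1, p x * φ k n x) / 2 / √(∫ x in Ioo (0 : ℝ) 1, p x ^ 2) ∈ values k n := by
  have hmeas : Measurable p := hc.measurable
  haveI : IsProbabilityMeasure (lam.map p) := Measure.isProbabilityMeasure_map hmeas.aemeasurable
  have hmean : mean (lam.map p) = 0 := by
    unfold mean
    rw [integral_map (f := fun t : ℝ => t) hmeas.aemeasurable measurable_id.aestronglyMeasurable]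
    have h1 : ∫ x in Ioo (0 : ℝ) 1, p (1 - x) = ∫ x in Ioo (0 : ℝ) 1, p x := refl_int p
    simp only [hodd] at h1
    rw [integral_neg] at h1
    have : ∫ x in Ioo (0 : ℝ) 1, p x = 0 := by linarith
    exact this
  have hsd : sd (lam.map p) = √(∫ x in Ioo (0 : ℝ) 1, p x ^ 2) := by
    unfold sd
    rw [hmean]
    simp only [sub_zero]
    rw [integral_map (f := fun t : ℝ => t ^ 2) hmeas.aemeasurable
      (measurable_id.pow_const 2).aestronglyMeasurable]
  have hsqi : IntegrableOn (fun x => p x ^ 2) (Ioo (0 : ℝ) 1) :=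
    ((hc.pow 2).continuousOn.integrableOn_Icc (a := (0 : ℝ)) (b := 1)).mono_set Ioo_subset_Icc_self
  have hhalf : p (1 / 2) = 0 := by
    have := hodd (1 / 2)
    norm_num at this
    norm_num
    linarith
  have hpos : 0 < ∫ x in Ioo (0 : ℝ) 1, p x ^ 2 := by
    rw [Ioo_eq]
    apply intervalIntegral.integral_pos (by norm_num) (hc.pow 2).continuousOn
      (fun x _ => sq_nonneg _)
    refine ⟨1, by norm_num, ?_⟩
    have := hm (show (1 / 2 : ℝ) < 1 by norm_num)
    rw [hhalf] at this
    exact pow_pos this 2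
  have hq : ∀ x ∈ Ioo (0 : ℝ) 1, quantile (lam.map p) x = p x := fun x hx => by
    rw [quantile_eq]
    exact Q287.ISD.quantile_map (hm.monotone.monotoneOn _) hmeas
      (fun y _ => hc.continuousAt.continuousWithinAt) hx
  refine ⟨lam.map p, ⟨inferInstance, ?_, ?_, ?_, ?_⟩, ?_⟩
  · intro t
    rw [Measure.map_apply hmeas (measurableSet_singleton t)]
    have hs : (p ⁻¹' {t}).Subsingleton := by
      intro x hx y hy
      simp only [mem_preimage, mem_singleton_iff] at hx hy
      exact hm.injective (hx.trans hy.symm)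
    exact hs.measure_zero _
  · rw [integrable_map_measure (g := fun t : ℝ => t ^ 2)
      (measurable_id.pow_const 2).aestronglyMeasurable hmeas.aemeasurable]
    exact hsqi
  · rw [hsd]; exact Real.sqrt_pos.2 hpos
  · rw [hmean]
    have e1 : (lam.map p).map (fun t => 2 * 0 - t) = lam.map (fun x => p (1 - x)) := by
      rw [Measure.map_map (g := fun t : ℝ => 2 * 0 - t)
        (measurable_const.sub measurable_id) hmeas]
      congr 1
      funext x
      simp only [Function.comp, hodd]; ring
    have e2 : lam.map (fun x => p (1 - x)) = (lam.map (fun x : ℝ => 1 - x)).map p := by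
      rw [Measure.map_map (f := fun x : ℝ => 1 - x) hmeas (measurable_const.sub measurable_id)]
      rfl
    rw [e1, e2, map_refl_lam]
  · rw [hmean, hsd, sub_zero]
    congr 1
    have e3 : recordMean k n (lam.map p) = ∫ x in Ioo (0 : ℝ) 1, p x * f k n x := by
      unfold recordMean
      refine setIntegral_congr_fun measurableSet_Ioo fun x hx => ?_
      rw [hq x hx]
    have e4 : ∫ x in Ioo (0 : ℝ) 1, p x * f k n (1 - x) = -∫ x in Ioo (0 : ℝ) 1, p x * f k n x := by
      rw [← refl_int (fun x => p x * f k n x), ← integral_neg]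
      refine integral_congr_ae (Eventually.of_forall fun x => ?_)
      simp only [hodd]; ring
    obtain ⟨C, hC⟩ := bound_f (n := n) hk
    have hpi : Integrable p lam := by
      have : IntegrableOn p (Ioo (0 : ℝ) 1) :=
        (hc.continuousOn.integrableOn_Icc (a := (0 : ℝ)) (b := 1)).mono_set Ioo_subset_Icc_self
      exact this
    have i1 : Integrable (fun x => p x * f k n x) lam :=
      integrable_mul_of_bound hpi (measurable_f k n) hC
    have i2 : Integrable (fun x => p x * f k n (1 - x)) lam :=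
      integrable_mul_of_bound hpi ((measurable_f k n).comp (measurable_const.sub measurable_id))
        fun x hx => hC (1 - x) ⟨by linarith [hx.2], by linarith [hx.1]⟩
    have e5 : ∫ x in Ioo (0 : ℝ) 1, p x * φ k n x = (∫ x in Ioo (0 : ℝ) 1, p x * f k n x) -
        ∫ x in Ioo (0 : ℝ) 1, p x * f k n (1 - x) := by
      rw [← integral_sub i1 i2]
      refine integral_congr_ae (Eventually.of_forall fun x => ?_)
      simp only [φ]; ring
    rw [e5, e4, e3]
    ring

/-- symmetrisation -/
lemma pairing {q g : ℝ → ℝ} (hqg : Integrable (fun x => q x * g x) lam)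
    (hg : ∀ x, g (1 - x) = -g x) :
    ∫ x in Ioo (0 : ℝ) 1, q x * g x = ∫ x in (1 / 2 : ℝ)..1, (q x - q (1 - x)) * g x := by
  have hI : IntervalIntegrable (fun x => q x * g x) volume 0 1 := by
    rw [intervalIntegrable_iff_integrableOn_Ioo_of_le (by norm_num)]
    exact hqg
  have h1 : IntervalIntegrable (fun x => q x * g x) volume 0 (1 / 2) :=
    hI.mono_set (by rw [uIcc_of_le (by norm_num), uIcc_of_le (by norm_num)]
                    exact Icc_subset_Icc le_rfl (by norm_num))
  have h2 : IntervalIntegrable (fun x => q x * g x) volume (1 / 2) 1 :=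
    hI.mono_set (by rw [uIcc_of_le (by norm_num), uIcc_of_le (by norm_num)]
                    exact Icc_subset_Icc (by norm_num) le_rfl)
  have e1 : ∫ x in (0 : ℝ)..(1 / 2), q x * g x =
      ∫ x in (1 / 2 : ℝ)..1, q (1 - x) * g (1 - x) := by
    have := intervalIntegral.integral_comp_sub_left (a := (1 / 2 : ℝ)) (b := 1)
      (fun x => q x * g x) 1
    rw [this]
    norm_num
  have h3 : IntervalIntegrable (fun x => q (1 - x) * g (1 - x)) volume (1 / 2) 1 := by
    have := h1.comp_sub_left 1
    norm_num at this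
    exact this.symm
  rw [Ioo_eq, ← intervalIntegral.integral_add_adjacent_intervals h1 h2, e1,
    ← intervalIntegral.integral_add h3 h2]
  apply intervalIntegral.integral_congr
  intro x _
  simp only [hg]
  ring

/-- the single crossing inequality -/
lemma crossing_ineq {h q : ℝ → ℝ} (hodd : ∀ x, h (1 - x) = -h x) {x₁ : ℝ}
    (hx₁ : x₁ ∈ Ico (1 / 2 : ℝ) 1) (h1 : ∀ x, 1 / 2 < x → x < x₁ → 0 ≤ h x)
    (h2 : ∀ x, x₁ < x → x < 1 → h x ≤ 0) (hh : IntervalIntegrable h volume (1 / 2) 1)
    (hI : ∫ x in (1 / 2 : ℝ)..1, h x ≤ 0) (hq : MonotoneOn q (Ioo 0 1))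
    (hqh : Integrable (fun x => q x * h x) lam) : ∫ x in Ioo (0 : ℝ) 1, q x * h x ≤ 0 := by
  rw [pairing hqh hodd]
  have hΔ : ∀ x ∈ Ioo (1 / 2 : ℝ) 1, (q x - q (1 - x)) * h x ≤ (q x₁ - q (1 - x₁)) * h x := by
    intro x hx
    have m1 : x ∈ Ioo (0 : ℝ) 1 := ⟨by linarith [hx.1], hx.2⟩
    have m2 : 1 - x ∈ Ioo (0 : ℝ) 1 := ⟨by linarith [hx.2], by linarith [hx.1]⟩
    have m3 : x₁ ∈ Ioo (0 : ℝ) 1 := ⟨by linarith [hx₁.1], hx₁.2⟩
    have m4 : 1 - x₁ ∈ Ioo (0 : ℝ) 1 := ⟨by linarith [hx₁.2], by linarith [hx₁.1]⟩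
    rcases lt_trichotomy x x₁ with e | e | e
    · have a1 := hq m1 m3 e.le
      have a2 := hq m4 m2 (by linarith)
      exact mul_le_mul_of_nonneg_right (by linarith) (h1 x hx.1 e)
    · rw [e]
    · have a1 := hq m3 m1 e.le
      have a2 := hq m2 m4 (by linarith)
      exact mul_le_mul_of_nonpos_right (by linarith) (h2 x e hx.2)
  have hc : 0 ≤ q x₁ - q (1 - x₁) := by
    have := hq (show 1 - x₁ ∈ Ioo (0 : ℝ) 1 from ⟨by linarith [hx₁.2], by linarith [hx₁.1]⟩)
      (show x₁ ∈ Ioo (0 : ℝ) 1 from ⟨by linarith [hx₁.1], hx₁.2⟩) (by linarith [hx₁.1])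
    linarith
  -- integrability of the symmetrised integrand
  have hI1 : IntervalIntegrable (fun x => q x * h x) volume 0 1 := by
    rw [intervalIntegrable_iff_integrableOn_Ioo_of_le (by norm_num)]
    exact hqh
  have i2 : IntervalIntegrable (fun x => q x * h x) volume (1 / 2) 1 :=
    hI1.mono_set (by rw [uIcc_of_le (by norm_num), uIcc_of_le (by norm_num)]
                     exact Icc_subset_Icc (by norm_num) le_rfl)
  have i1 : IntervalIntegrable (fun x => q x * h x) volume 0 (1 / 2) :=
    hI1.mono_set (by rw [uIcc_of_le (by norm_num), uIcc_of_le (by norm_num)]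
                     exact Icc_subset_Icc le_rfl (by norm_num))
  have i3 : IntervalIntegrable (fun x => q (1 - x) * h (1 - x)) volume (1 / 2) 1 := by
    have := i1.comp_sub_left 1
    norm_num at this
    exact this.symm
  have i4 : IntervalIntegrable (fun x => (q x - q (1 - x)) * h x) volume (1 / 2) 1 := by
    refine (i2.add i3).congr ?_
    intro x _
    simp only [hodd]; ring
  calc ∫ x in (1 / 2 : ℝ)..1, (q x - q (1 - x)) * h x
      ≤ ∫ x in (1 / 2 : ℝ)..1, (q x₁ - q (1 - x₁)) * h x := by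
        apply intervalIntegral.integral_mono_on_of_le_Ioo (by norm_num) i4 (hh.const_mul _)
        intro x hx
        exact hΔ x hx
    _ = (q x₁ - q (1 - x₁)) * ∫ x in (1 / 2 : ℝ)..1, h x :=
        intervalIntegral.integral_const_mul _ _
    _ ≤ 0 := mul_nonpos_of_nonneg_of_nonpos hc hI

end Pool.Agent.Q82.KR
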