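import Pool.Agent.Q82.KR.Fun
import Pool.Agent.Q287.ISD.Basic

set_option autoImplicit false

/-! # Symmetric laws and the expectation of the record values -/

namespace Pool.Agent.Q82.KR

open Real Set MeasureTheory Filter Topology

/-- the quantile function `F⁻¹(x) = inf {t : F(t) ≥ x}` of a law `P` on `ℝ` -/
noncomputable def quantile (P : Measure ℝ) (x : ℝ) : ℝ := sInf {t : ℝ | x ≤ P.real (Iic t)}

/-- the mean -/
noncomputable def mean (P : Measure ℝ) : ℝ := ∫ t, t ∂P

/-- the standard deviation -/
noncomputable def sd (P : Measure ℝ) : ℝ := √(∫ t, (t - mean P) ^ 2 ∂P)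

/-- the expectation `∫₀¹ F⁻¹(x) f(x) dx` of the `n`-th `k`-th record value -/
noncomputable def recordMean (k n : ℕ) (P : Measure ℝ) : ℝ :=
  ∫ x in Ioo (0 : ℝ) 1, quantile P x * f k n x

/-- the laws with continuous distribution function and finite positive variance which are symmetric
about their mean -/
structure Sym (P : Measure ℝ) : Prop where
  prob : IsProbabilityMeasure P
  cont : ∀ t, P {t} = 0
  sq : Integrable (fun t => t ^ 2) P
  pos : 0 < sd P
  symm : P.map (fun t => 2 * mean P - t) = P

/-- the values of `(E R - μ) / σ` -/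
def values (k n : ℕ) : Set ℝ :=
  {v | ∃ P : Measure ℝ, Sym P ∧ v = (recordMean k n P - mean P) / sd P}

open Q287.ISD (lam)

lemma quantile_eq (P : Measure ℝ) : quantile P = Q287.ISD.quantile P := rfl

section law
variable {P : Measure ℝ}

lemma F_quantile [IsProbabilityMeasure P] (hP : ∀ t, P {t} = 0) {x : ℝ} (hx : x ∈ Ioo (0 : ℝ) 1) :
    P.real (Iic (quantile P x)) = x := by
  have hge : x ≤ P.real (Iic (quantile P x)) :=
    (Q287.ISD.quantile_le_iff P hx.1 hx.2 _).1 le_rfl
  refine le_antisymm ?_ hge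
  have e1 : P (Iic (quantile P x)) = P (Iio (quantile P x)) := by
    have : Iic (quantile P x) = Iio (quantile P x) ∪ {quantile P x} := by
      ext y; simp [le_iff_lt_or_eq]
    rw [this]
    apply le_antisymm
    · calc P (Iio (quantile P x) ∪ {quantile P x}) ≤ P (Iio (quantile P x)) + P {quantile P x} :=
          measure_union_le _ _
        _ = P (Iio (quantile P x)) := by rw [hP, add_zero]
    · exact measure_mono subset_union_left
  have hm := Q287.ISD.aemeasurable_quantile P
  have e2 : P (Iio (quantile P x)) ≤ ENNReal.ofReal x := by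
    have h1 : P (Iio (quantile P x)) = lam (Q287.ISD.quantile P ⁻¹' Iio (quantile P x)) := by
      conv_lhs => rw [← Q287.ISD.map_quantile P]
      rw [Measure.map_apply_of_aemeasurable hm measurableSet_Iio]
      rw [Q287.ISD.map_quantile P]
    rw [h1]
    have hs : NullMeasurableSet (Q287.ISD.quantile P ⁻¹' Iio (quantile P x)) lam :=
      hm.nullMeasurable measurableSet_Iio
    rw [Measure.restrict_apply₀ hs]
    calc volume (Q287.ISD.quantile P ⁻¹' Iio (quantile P x) ∩ Ioo 0 1) ≤ volume (Ioo (0 : ℝ) x) := by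
          apply measure_mono
          rintro u ⟨hu1, hu2⟩
          refine ⟨hu2.1, ?_⟩
          by_contra hcon
          push Not at hcon
          exact absurd hu1 (not_lt.2 (Q287.ISD.quantile_monotoneOn P hx hu2 hcon))
      _ = ENNReal.ofReal x := by rw [Real.volume_Ioo, sub_zero]
  rw [measureReal_def, e1]
  exact ENNReal.toReal_le_of_le_ofReal hx.1.le e2

lemma measurable_F [IsProbabilityMeasure P] : Measurable fun t => P.real (Iic t) :=
  (show Monotone fun t => P.real (Iic t) from
    fun _ _ h => measureReal_mono (Iic_subset_Iic.2 h)).measurable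

lemma J_eq [IsProbabilityMeasure P] (hP : ∀ t, P {t} = 0) (m : ℝ) {g : ℝ → ℝ} (hg : Measurable g) :
    ∫ x in Ioo (0 : ℝ) 1, (quantile P x - m) * g x = ∫ t, (t - m) * g (P.real (Iic t)) ∂P := by
  have h := integral_map (μ := lam) (Q287.ISD.aemeasurable_quantile P)
    (f := fun t => (t - m) * g (P.real (Iic t)))
    (((measurable_id.sub_const m).mul (hg.comp measurable_F)).aestronglyMeasurable)
  rw [Q287.ISD.map_quantile] at h
  rw [h]
  refine setIntegral_congr_fun measurableSet_Ioo fun x hx => ?_
  simp only [← quantile_eq]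
  rw [F_quantile hP hx]

lemma F_symm [IsProbabilityMeasure P] (hP : ∀ t, P {t} = 0) {m : ℝ}
    (hs : P.map (fun t => 2 * m - t) = P) (t : ℝ) :
    P.real (Iic (2 * m - t)) = 1 - P.real (Iic t) := by
  have hmeas : Measurable fun t : ℝ => 2 * m - t := measurable_const.sub measurable_id
  have e1 : P (Iic (2 * m - t)) = P (Ici t) := by
    conv_lhs => rw [← hs]
    rw [Measure.map_apply hmeas measurableSet_Iic]
    congr 1
    ext s; simp
  have e2 : P (Ici t) = P (Ioi t) := by
    have : Ici t = Ioi t ∪ {t} := by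
      ext y; simp [le_iff_lt_or_eq, eq_comm]
    rw [this]
    apply le_antisymm
    · calc P (Ioi t ∪ {t}) ≤ P (Ioi t) + P {t} := measure_union_le _ _
        _ = P (Ioi t) := by rw [hP, add_zero]
    · exact measure_mono subset_union_left
  rw [measureReal_def, e1, e2, ← measureReal_def, ← compl_Iic, probReal_compl_eq_one_sub
    measurableSet_Iic]

lemma J_symm [IsProbabilityMeasure P] (hP : ∀ t, P {t} = 0) {m : ℝ}
    (hs : P.map (fun t => 2 * m - t) = P) {g : ℝ → ℝ} (hg : Measurable g) :
    ∫ x in Ioo (0 : ℝ) 1, (quantile P x - m) * g (1 - x) =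
      -∫ x in Ioo (0 : ℝ) 1, (quantile P x - m) * g x := by
  have hmeas : Measurable fun t : ℝ => 2 * m - t := measurable_const.sub measurable_id
  rw [J_eq hP m hg, J_eq hP m (g := fun x => g (1 - x))
    (hg.comp (measurable_const.sub measurable_id))]
  have h := integral_map (μ := P) hmeas.aemeasurable
    (f := fun t => (t - m) * g (P.real (Iic t)))
    (((measurable_id.sub_const m).mul (hg.comp measurable_F)).aestronglyMeasurable)
  rw [hs] at h
  rw [h, ← integral_neg]
  refine integral_congr_ae (Eventually.of_forall fun t => ?_)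
  simp only
  rw [F_symm hP hs]
  ring

end law

lemma measurable_f (k n : ℕ) : Measurable (f k n) := by
  unfold f
  fun_prop

lemma bound_f {k n : ℕ} (hk : 2 ≤ k) : ∃ C, ∀ x ∈ Icc (0 : ℝ) 1, |f k n x| ≤ C := by
  have h := isCompact_Icc.exists_bound_of_continuousOn
    ((cont_f (n := n) hk).mono (show Icc (0 : ℝ) 1 ⊆ Iic 1 from fun x hx => hx.2))
  simpa [Real.norm_eq_abs] using h

lemma integrable_mul_of_bound {q g : ℝ → ℝ} (hq : Integrable q lam) (hg : Measurable g) {C : ℝ}
    (hC : ∀ x ∈ Icc (0 : ℝ) 1, |g x| ≤ C) : Integrable (fun x => q x * g x) lam := by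
  refine hq.mul_bdd (c := C) hg.aestronglyMeasurable ?_
  rw [ae_restrict_iff' measurableSet_Ioo]
  exact Eventually.of_forall fun x hx => hC x ⟨hx.1.le, hx.2.le⟩

lemma integrable_id_of_sq {P : Measure ℝ} [IsProbabilityMeasure P]
    (h : Integrable (fun t : ℝ => t ^ 2) P) : Integrable id P := by
  refine ((integrable_const (1 : ℝ)).add h).mono' measurable_id.aestronglyMeasurable
    (Eventually.of_forall fun t => ?_)
  simp only [id, Pi.add_apply, Real.norm_eq_abs]
  nlinarith [sq_abs t, sq_nonneg (|t| - 1), abs_nonneg t]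

lemma int_f_one {k n : ℕ} (hk : 2 ≤ k) : ∫ x in Ioo (0 : ℝ) 1, f k n x = 1 := by
  rw [← integral_Ioc_eq_integral_Ioo, ← intervalIntegral.integral_of_le (by norm_num),
    integral_f hk (by norm_num) le_rfl, Sf_zero, Sf_one (by omega), sub_zero]

/-- representation of the bias -/
lemma recordMean_eq {k n : ℕ} (hk : 2 ≤ k) {P : Measure ℝ} (h : Sym P) :
    recordMean k n P - mean P =
      (∫ x in Ioo (0 : ℝ) 1, (quantile P x - mean P) * φ k n x) / 2 := by
  haveI := h.prob
  obtain ⟨C, hC⟩ := bound_f (n := n) hk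
  have hq : Integrable (quantile P) lam :=
    Q287.ISD.integrable_quantile P (integrable_id_of_sq h.sq)
  have hq' : Integrable (fun x => quantile P x - mean P) lam := hq.sub (integrable_const _)
  have hf1 : Integrable (fun x => (quantile P x - mean P) * f k n x) lam :=
    integrable_mul_of_bound hq' (measurable_f k n) hC
  have hf2 : Integrable (fun x => (quantile P x - mean P) * f k n (1 - x)) lam :=
    integrable_mul_of_bound hq' ((measurable_f k n).comp (measurable_const.sub measurable_id))
      fun x hx => hC (1 - x) ⟨by linarith [hx.2], by linarith [hx.1]⟩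
  have hfi : Integrable (f k n) lam := by
    have := integrable_mul_of_bound (q := fun _ => (1 : ℝ)) (integrable_const _)
      (measurable_f k n) hC
    simpa using this
  have e1 : recordMean k n P - mean P =
      ∫ x in Ioo (0 : ℝ) 1, (quantile P x - mean P) * f k n x := by
    have e : ∀ x, (quantile P x - mean P) * f k n x =
      quantile P x * f k n x - mean P * f k n x := fun x => by ring
    simp only [e]
    rw [integral_sub (integrable_mul_of_bound hq (measurable_f k n) hC) (hfi.const_mul _),
      integral_const_mul, int_f_one hk, mul_one]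
    rfl
  have e2 := J_symm h.cont h.symm (measurable_f k n)
  have e3 : ∫ x in Ioo (0 : ℝ) 1, (quantile P x - mean P) * φ k n x =
      (∫ x in Ioo (0 : ℝ) 1, (quantile P x - mean P) * f k n x) -
      ∫ x in Ioo (0 : ℝ) 1, (quantile P x - mean P) * f k n (1 - x) := by
    rw [← integral_sub hf1 hf2]
    refine integral_congr_ae (Eventually.of_forall fun x => ?_)
    simp only [φ]; ring
  rw [e3, e2, e1]
  ring

/-- the Cauchy-Schwarz inequality -/
lemma cauchy {u v : ℝ → ℝ} {μ : Measure ℝ} (hu : Integrable (fun x => u x ^ 2) μ)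
    (hv : Integrable (fun x => v x ^ 2) μ) (huv : Integrable (fun x => u x * v x) μ) :
    ∫ x, u x * v x ∂μ ≤ √(∫ x, u x ^ 2 ∂μ) * √(∫ x, v x ^ 2 ∂μ) := by
  have hquad : ∀ s : ℝ, 0 ≤ (∫ x, u x ^ 2 ∂μ) * (s * s) + (2 * ∫ x, u x * v x ∂μ) * s +
      ∫ x, v x ^ 2 ∂μ := by
    intro s
    have e : (∫ x, u x ^ 2 ∂μ) * (s * s) + (2 * ∫ x, u x * v x ∂μ) * s + ∫ x, v x ^ 2 ∂μ =
        ∫ x, (u x * s + v x) ^ 2 ∂μ := by
      have e2 : ∀ x, (u x * s + v x) ^ 2 = (s * s) * u x ^ 2 + (2 * s) * (u x * v x) + v x ^ 2 :=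
        fun x => by ring
      simp only [e2]
      have i1 : Integrable (fun x => (s * s) * u x ^ 2) μ := hu.const_mul _
      have i2 : Integrable (fun x => (2 * s) * (u x * v x)) μ := huv.const_mul _
      have i3 : Integrable (fun x => (s * s) * u x ^ 2 + (2 * s) * (u x * v x)) μ := i1.add i2
      rw [integral_add i3 hv, integral_add i1 i2, integral_const_mul, integral_const_mul]
      ring
    rw [e]
    exact integral_nonneg fun x => sq_nonneg _
  have hd := discrim_le_zero hquad
  unfold discrim at hd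
  have hA : 0 ≤ ∫ x, u x ^ 2 ∂μ := integral_nonneg fun x => sq_nonneg _
  rw [← Real.sqrt_mul hA]
  apply Real.le_sqrt_of_sq_le
  nlinarith

/-- the upper bound -/
lemma value_le {k n : ℕ} (hk : 2 ≤ k) {G : ℝ → ℝ} (hGc : Continuous G)
    (hI : ∀ q : ℝ → ℝ, MonotoneOn q (Ioo 0 1) → Integrable q lam →
      ∫ x in Ioo (0 : ℝ) 1, q x * φ k n x ≤ ∫ x in Ioo (0 : ℝ) 1, q x * G x)
    {v : ℝ} (hv : v ∈ values k n) : v ≤ √(∫ x in Ioo (0 : ℝ) 1, G x ^ 2) / 2 := by
  obtain ⟨P, h, rfl⟩ := hv
  haveI := h.prob
  rw [div_le_iff₀ h.pos, recordMean_eq hk h]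
  have hq : Integrable (quantile P) lam :=
    Q287.ISD.integrable_quantile P (integrable_id_of_sq h.sq)
  have hq' : Integrable (fun x => quantile P x - mean P) lam := hq.sub (integrable_const _)
  have hm : MonotoneOn (fun x => quantile P x - mean P) (Ioo 0 1) := fun x hx y hy hxy => by
    have := Q287.ISD.quantile_monotoneOn P hx hy hxy
    simp only [← quantile_eq] at this
    linarith
  have h1 := hI _ hm hq'
  obtain ⟨C, hC⟩ := isCompact_Icc.exists_bound_of_continuousOn (hGc.continuousOn (s := Icc (0 : ℝ) 1))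
  simp only [Real.norm_eq_abs] at hC
  have hid : Integrable (fun t : ℝ => t) P := integrable_id_of_sq h.sq
  have hsq : Integrable (fun t : ℝ => (t - mean P) ^ 2) P := by
    have e : ∀ t : ℝ, (t - mean P) ^ 2 = t ^ 2 - (2 * mean P) * t + mean P ^ 2 := fun t => by ring
    simp only [e]
    exact (h.sq.sub (hid.const_mul _)).add (integrable_const _)
  have hmq := Q287.ISD.aemeasurable_quantile P
  have hsq2 : Integrable (fun x => (quantile P x - mean P) ^ 2) lam := by
    have h3 : Integrable (fun t : ℝ => (t - mean P) ^ 2) (lam.map (Q287.ISD.quantile P)) := by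
      rw [Q287.ISD.map_quantile]; exact hsq
    exact h3.comp_aemeasurable hmq
  have esd : ∫ x in Ioo (0 : ℝ) 1, (quantile P x - mean P) ^ 2 = ∫ t, (t - mean P) ^ 2 ∂P := by
    have h3 := integral_map (μ := lam) hmq (f := fun t : ℝ => (t - mean P) ^ 2)
      ((measurable_id.sub_const _).pow_const 2).aestronglyMeasurable
    rw [Q287.ISD.map_quantile] at h3
    rw [h3]; rfl
  have hG2 : Integrable (fun x => G x ^ 2) lam := by
    have : IntegrableOn (fun x => G x ^ 2) (Ioo 0 1) :=
      ((hGc.pow 2).continuousOn.integrableOn_Icc (a := (0 : ℝ)) (b := 1)).mono_set Ioo_subset_Icc_self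
    exact this
  have h4 := cauchy hsq2 hG2 (integrable_mul_of_bound hq' hGc.measurable hC)
  rw [esd] at h4
  have : sd P = √(∫ t, (t - mean P) ^ 2 ∂P) := rfl
  rw [this]
  linarith

end Pool.Agent.Q82.KR
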