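import Pool.Agent.Q82.KR.Shape

set_option autoImplicit false

/-! # Sign pattern and quasi-concavity of `ψ` -/

namespace Pool.Agent.Q82.KR

open Real Set

variable (a b : ℕ)

/-- `ψ(y) = L ^ (a+1) y ^ (b+1) - M ^ (a+1) (1-y) ^ (b+1)` -/
noncomputable def ψ (y : ℝ) : ℝ :=
  L y ^ (a + 1) * y ^ (b + 1) - M y ^ (a + 1) * (1 - y) ^ (b + 1)

/-- the derivative of `ψ` -/
noncomputable def dψ (y : ℝ) : ℝ :=
  L y ^ a * y ^ b * ((b + 1) * L y - (a + 1)) - M y ^ a * (1 - y) ^ b * ((a + 1) - (b + 1) * M y)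

lemma hasDerivAt_ψ {y : ℝ} (h0 : 0 < y) (h1 : y < 1) : HasDerivAt (ψ a b) (dψ a b y) y := by
  have d1 := ((hasDerivAt_L h0).pow (a + 1)).mul ((hasDerivAt_id y).pow (b + 1))
  have d2 := ((hasDerivAt_M h1).pow (a + 1)).mul (((hasDerivAt_id y).const_sub 1).pow (b + 1))
  have d := d1.sub d2
  have hz : (1 - y) ≠ 0 := by linarith
  refine d.congr_deriv ?_
  unfold dψ
  simp only [Nat.add_sub_cancel, id, Pi.pow_apply, Nat.cast_add, Nat.cast_one, pow_succ]
  field_simp
  ring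

lemma r_half : r a b (1 / 2) = 0 := by
  unfold r L M; norm_num

lemma log_terms {p q : ℝ} (hp : 0 < p) (hq : 0 < q) :
    Real.log (p ^ (a + 1) * q ^ (b + 1)) = (a + 1) * Real.log p + (b + 1) * Real.log q := by
  rw [Real.log_mul (by positivity) (by positivity), Real.log_pow, Real.log_pow]
  push_cast; ring

lemma ψ_nonneg_iff {y : ℝ} (h0 : 0 < y) (h1 : y < 1) : 0 ≤ ψ a b y ↔ 0 ≤ r a b y := by
  have hL := L_pos h0 h1
  have hM := M_pos h0 h1
  have hz : 0 < 1 - y := by linarith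
  have e1 := log_terms a b hL h0
  have e2 := log_terms a b hM hz
  have : r a b y = Real.log (L y ^ (a + 1) * y ^ (b + 1)) -
      Real.log (M y ^ (a + 1) * (1 - y) ^ (b + 1)) := by rw [e1, e2]; unfold r; ring
  rw [this, sub_nonneg, Real.log_le_log_iff (by positivity) (by positivity)]
  unfold ψ
  rw [sub_nonneg]

lemma ψ_pos_iff {y : ℝ} (h0 : 0 < y) (h1 : y < 1) : 0 < ψ a b y ↔ 0 < r a b y := by
  have hL := L_pos h0 h1
  have hM := M_pos h0 h1
  have hz : 0 < 1 - y := by linarith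
  have e1 := log_terms a b hL h0
  have e2 := log_terms a b hM hz
  have : r a b y = Real.log (L y ^ (a + 1) * y ^ (b + 1)) -
      Real.log (M y ^ (a + 1) * (1 - y) ^ (b + 1)) := by rw [e1, e2]; unfold r; ring
  rw [this, sub_pos, Real.log_lt_log_iff (by positivity) (by positivity)]
  unfold ψ
  rw [sub_pos]

lemma r_S1 {y₁ y₂ : ℝ} (h0 : 0 < y₁) (h12 : y₁ < y₂) (h2 : y₂ < 1 / 2) (hr : 0 ≤ r a b y₁) :
    0 < r a b y₂ := by
  have ha : (0 : ℝ) < a + 1 := by positivity
  rcases le_or_gt (((a : ℝ) + 1) * w y₂) (b + 1) with h | h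
  · have hm : StrictMonoOn (r a b) (Icc y₁ y₂) := by
      apply strictMonoOn_of_deriv_pos (convex_Icc _ _)
      · intro y hy
        exact (hasDerivAt_r a b (lt_of_lt_of_le h0 hy.1)
          (by linarith [hy.2])).continuousAt.continuousWithinAt
      · intro y hy
        rw [interior_Icc] at hy
        have y0 : 0 < y := h0.trans hy.1
        have y1 : y < 1 / 2 := hy.2.trans h2
        rw [(hasDerivAt_r a b y0 (by linarith)).deriv]
        have hw := w_strictMonoOn ⟨y0, y1⟩ ⟨h0.trans h12, h2⟩ hy.2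
        have : (a + 1) * w y < b + 1 := lt_of_lt_of_le (mul_lt_mul_of_pos_left hw ha) h
        apply div_pos (by linarith)
        exact mul_pos y0 (by linarith)
    have := hm (left_mem_Icc.2 h12.le) (right_mem_Icc.2 h12.le) h12
    linarith
  · have hm : StrictAntiOn (r a b) (Icc y₂ (1 / 2)) := by
      apply strictAntiOn_of_deriv_neg (convex_Icc _ _)
      · intro y hy
        exact (hasDerivAt_r a b (lt_of_lt_of_le (h0.trans h12) hy.1)
          (by linarith [hy.2])).continuousAt.continuousWithinAt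
      · intro y hy
        rw [interior_Icc] at hy
        have y0 : 0 < y := (h0.trans h12).trans hy.1
        have y1 : y < 1 / 2 := hy.2
        rw [(hasDerivAt_r a b y0 (by linarith)).deriv]
        have hw := w_strictMonoOn ⟨h0.trans h12, h2⟩ ⟨y0, y1⟩ hy.1
        have : (b : ℝ) + 1 < (a + 1) * w y := lt_trans h (mul_lt_mul_of_pos_left hw ha)
        apply div_neg_of_neg_of_pos (by linarith)
        exact mul_pos y0 (by linarith)
    have := hm (left_mem_Icc.2 h2.le) (right_mem_Icc.2 h2.le) h2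
    rw [r_half] at this
    exact this

/-- sign pattern -/
lemma ψ_S1 {y₁ y₂ : ℝ} (h0 : 0 < y₁) (h12 : y₁ < y₂) (h2 : y₂ < 1 / 2) (h : 0 ≤ ψ a b y₁) :
    0 < ψ a b y₂ := by
  rw [ψ_pos_iff a b (h0.trans h12) (by linarith)]
  rw [ψ_nonneg_iff a b h0 (by linarith)] at h
  exact r_S1 a b h0 h12 h2 h

lemma dψ_pos_iff {y : ℝ} (h0 : 0 < y) (h1 : y < 1) (hA : 0 < (b + 1) * L y - (a + 1))
    (hB : 0 < (a + 1) - (b + 1) * M y) : 0 < dψ a b y ↔ 0 < θ a b y := by
  have hL := L_pos h0 h1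
  have hM := M_pos h0 h1
  have hz : 0 < 1 - y := by linarith
  have e1 : Real.log (L y ^ a * y ^ b * ((b + 1) * L y - (a + 1))) =
      a * Real.log (L y) + b * Real.log y + Real.log ((b + 1) * L y - (a + 1)) := by
    rw [Real.log_mul (by positivity) hA.ne', Real.log_mul (by positivity) (by positivity),
      Real.log_pow, Real.log_pow]
  have e2 : Real.log (M y ^ a * (1 - y) ^ b * ((a + 1) - (b + 1) * M y)) =
      a * Real.log (M y) + b * Real.log (1 - y) + Real.log ((a + 1) - (b + 1) * M y) := by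
    rw [Real.log_mul (by positivity) hB.ne', Real.log_mul (by positivity) (by positivity),
      Real.log_pow, Real.log_pow]
  have : θ a b y = Real.log (L y ^ a * y ^ b * ((b + 1) * L y - (a + 1))) -
      Real.log (M y ^ a * (1 - y) ^ b * ((a + 1) - (b + 1) * M y)) := by
    rw [e1, e2]; unfold θ; ring
  rw [this, sub_pos, Real.log_lt_log_iff (by positivity) (by positivity)]
  unfold dψ
  rw [sub_pos]

lemma dψ_nonneg_iff {y : ℝ} (h0 : 0 < y) (h1 : y < 1) (hA : 0 < (b + 1) * L y - (a + 1))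
    (hB : 0 < (a + 1) - (b + 1) * M y) : 0 ≤ dψ a b y ↔ 0 ≤ θ a b y := by
  have hL := L_pos h0 h1
  have hM := M_pos h0 h1
  have hz : 0 < 1 - y := by linarith
  have e1 : Real.log (L y ^ a * y ^ b * ((b + 1) * L y - (a + 1))) =
      a * Real.log (L y) + b * Real.log y + Real.log ((b + 1) * L y - (a + 1)) := by
    rw [Real.log_mul (by positivity) hA.ne', Real.log_mul (by positivity) (by positivity),
      Real.log_pow, Real.log_pow]
  have e2 : Real.log (M y ^ a * (1 - y) ^ b * ((a + 1) - (b + 1) * M y)) =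
      a * Real.log (M y) + b * Real.log (1 - y) + Real.log ((a + 1) - (b + 1) * M y) := by
    rw [Real.log_mul (by positivity) hB.ne', Real.log_mul (by positivity) (by positivity),
      Real.log_pow, Real.log_pow]
  have : θ a b y = Real.log (L y ^ a * y ^ b * ((b + 1) * L y - (a + 1))) -
      Real.log (M y ^ a * (1 - y) ^ b * ((a + 1) - (b + 1) * M y)) := by
    rw [e1, e2]; unfold θ; ring
  rw [this, sub_nonneg, Real.log_le_log_iff (by positivity) (by positivity)]
  unfold dψ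
  rw [sub_nonneg]

/-- monotonicity pattern -/
lemma ψ_S2 {y₁ y₂ : ℝ} (h0 : 0 < y₁) (h12 : y₁ < y₂) (h2 : y₂ < 1 / 2) (h : 0 < ψ a b y₁)
    (hd : 0 ≤ dψ a b y₂) : 0 < dψ a b y₁ := by
  have ha : (0 : ℝ) < a + 1 := by positivity
  have hb : (0 : ℝ) < b + 1 := by positivity
  rcases le_or_gt (((a : ℝ) + 1) * w y₁) (b + 1) with hw | hw
  · have h1 : y₁ < 1 / 2 := h12.trans h2
    have hL := L_pos h0 (show y₁ < 1 by linarith)
    have hM := M_pos h0 (show y₁ < 1 by linarith)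
    have hz : 0 < 1 - y₁ := by linarith
    have hwP := w_eq h0 (show y₁ < 1 by linarith)
    -- `A > 0`
    have hA : 0 < (b + 1) * L y₁ - (a + 1) := by
      have t1 := lt_w h0 h1
      have t2 : (a + 1) * (w y₁ * L y₁) ≤ (b + 1) * L y₁ := by
        have := mul_le_mul_of_nonneg_right hw hL.le
        linarith
      nlinarith
    have hAB : (((a : ℝ) + 1) - (b + 1) * M y₁) * (y₁ * L y₁) ≤
        ((b + 1) * L y₁ - (a + 1)) * ((1 - y₁) * M y₁) := by
      have t3 : (a + 1) * (w y₁ * (L y₁ * M y₁)) ≤ (b + 1) * (L y₁ * M y₁) := by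
        have := mul_le_mul_of_nonneg_right hw (mul_pos hL hM).le
        linarith
      rw [hwP] at t3
      nlinarith
    have hψ : M y₁ ^ (a + 1) * (1 - y₁) ^ (b + 1) < L y₁ ^ (a + 1) * y₁ ^ (b + 1) := by
      unfold ψ at h; linarith
    have e : dψ a b y₁ * ((y₁ * L y₁) * ((1 - y₁) * M y₁)) =
        (L y₁ ^ (a + 1) * y₁ ^ (b + 1)) * (((b + 1) * L y₁ - (a + 1)) * ((1 - y₁) * M y₁)) -
        (M y₁ ^ (a + 1) * (1 - y₁) ^ (b + 1)) * ((((a : ℝ) + 1) - (b + 1) * M y₁) * (y₁ * L y₁)) := by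
      unfold dψ; ring
    have hX : 0 < ((b + 1) * L y₁ - (a + 1)) * ((1 - y₁) * M y₁) := by positivity
    have hT : 0 < M y₁ ^ (a + 1) * (1 - y₁) ^ (b + 1) := by positivity
    have t4 : (M y₁ ^ (a + 1) * (1 - y₁) ^ (b + 1)) *
        ((((a : ℝ) + 1) - (b + 1) * M y₁) * (y₁ * L y₁)) ≤
        (M y₁ ^ (a + 1) * (1 - y₁) ^ (b + 1)) *
        (((b + 1) * L y₁ - (a + 1)) * ((1 - y₁) * M y₁)) := mul_le_mul_of_nonneg_left hAB hT.le
    have t5 : (M y₁ ^ (a + 1) * (1 - y₁) ^ (b + 1)) *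
        (((b + 1) * L y₁ - (a + 1)) * ((1 - y₁) * M y₁)) <
        (L y₁ ^ (a + 1) * y₁ ^ (b + 1)) *
        (((b + 1) * L y₁ - (a + 1)) * ((1 - y₁) * M y₁)) := mul_lt_mul_of_pos_right hψ hX
    have : 0 < dψ a b y₁ * ((y₁ * L y₁) * ((1 - y₁) * M y₁)) := by rw [e]; linarith
    exact (mul_pos_iff_of_pos_right (by positivity)).1 this
  · -- all of `[y₁, y₂]` lies in the region `κ < w`
    have hwy : ∀ y ∈ Icc y₁ y₂, ((b : ℝ) + 1) < (a + 1) * w y := by
      intro y hy
      rcases eq_or_lt_of_le hy.1 with e | e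
      · rw [← e]; exact hw
      · have := w_strictMonoOn ⟨h0, h12.trans h2⟩ ⟨h0.trans e, lt_of_le_of_lt hy.2 h2⟩ e
        exact hw.trans (mul_lt_mul_of_pos_left this ha)
    have hB : ∀ y ∈ Icc y₁ y₂, 0 < ((a : ℝ) + 1) - (b + 1) * M y := by
      intro y hy
      have y0 : 0 < y := lt_of_lt_of_le h0 hy.1
      have y1 : y < 1 / 2 := lt_of_le_of_lt hy.2 h2
      have hM := M_pos y0 (show y < 1 by linarith)
      have t1 := mul_lt_mul_of_pos_right (hwy y hy) hM
      have t2 := w_lt y0 y1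
      nlinarith
    have hy2 : y₂ ∈ Icc y₁ y₂ := right_mem_Icc.2 h12.le
    have hy1 : y₁ ∈ Icc y₁ y₂ := left_mem_Icc.2 h12.le
    have y20 : 0 < y₂ := h0.trans h12
    have hA2 : 0 < ((b : ℝ) + 1) * L y₂ - (a + 1) := by
      have hL := L_pos y20 (show y₂ < 1 by linarith)
      have hM := M_pos y20 (show y₂ < 1 by linarith)
      have hz : 0 < 1 - y₂ := by linarith
      have t1 : 0 < M y₂ ^ a * (1 - y₂) ^ b * (((a : ℝ) + 1) - (b + 1) * M y₂) := by
        have := hB y₂ hy2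
        positivity
      have t2 : 0 < L y₂ ^ a * y₂ ^ b * (((b : ℝ) + 1) * L y₂ - (a + 1)) := by
        unfold dψ at hd; linarith
      exact (mul_pos_iff_of_pos_left (by positivity)).1 t2
    have hA : ∀ y ∈ Icc y₁ y₂, 0 < ((b : ℝ) + 1) * L y - (a + 1) := by
      intro y hy
      have y0 : 0 < y := lt_of_lt_of_le h0 hy.1
      have : L y₂ ≤ L y := by
        unfold L
        linarith [Real.log_le_log y0 hy.2]
      have := mul_le_mul_of_nonneg_left this hb.le
      linarith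
    have hm : StrictAntiOn (θ a b) (Icc y₁ y₂) := by
      apply strictAntiOn_of_deriv_neg (convex_Icc _ _)
      · intro y hy
        exact (hasDerivAt_θ a b (lt_of_lt_of_le h0 hy.1) (by linarith [hy.2]) (hA y hy)
          (hB y hy)).continuousAt.continuousWithinAt
      · intro y hy
        rw [interior_Icc] at hy
        have hy' : y ∈ Icc y₁ y₂ := ⟨hy.1.le, hy.2.le⟩
        have y0 : 0 < y := h0.trans hy.1
        have y1 : y < 1 / 2 := hy.2.trans h2
        rw [(hasDerivAt_θ a b y0 (by linarith) (hA y hy') (hB y hy')).deriv]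
        have := E_pos a b y0 y1 (hA y hy') (hwy y hy')
        apply div_neg_of_neg_of_pos (by linarith)
        exact mul_pos y0 (by linarith)
    have h3 := hm hy1 hy2 h12
    rw [dψ_nonneg_iff a b y20 (by linarith) (hA _ hy2) (hB _ hy2)] at hd
    rw [dψ_pos_iff a b h0 (by linarith) (hA _ hy1) (hB _ hy1)]
    linarith

/-- quasi-concavity of the positive part -/
lemma ψ_S3 {y₁ y₂ y₃ : ℝ} (h0 : 0 < y₁) (h12 : y₁ < y₂) (h23 : y₂ < y₃) (h3 : y₃ < 1 / 2)
    (h : 0 < ψ a b y₁) : min (ψ a b y₁) (ψ a b y₃) < ψ a b y₂ := by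
  by_contra hcon
  push Not at hcon
  have c1 : ψ a b y₂ ≤ ψ a b y₁ := hcon.trans (min_le_left _ _)
  have c3 : ψ a b y₂ ≤ ψ a b y₃ := hcon.trans (min_le_right _ _)
  have cont : ∀ {p q : ℝ}, 0 < p → q < 1 → ContinuousOn (ψ a b) (Icc p q) := fun hp hq y hy =>
    (hasDerivAt_ψ a b (lt_of_lt_of_le hp hy.1) (lt_of_le_of_lt hy.2 hq)).continuousAt.continuousWithinAt
  obtain ⟨ξ, hξ, eξ⟩ := exists_hasDerivAt_eq_slope (ψ a b) (dψ a b) h12
    (cont h0 (by linarith)) fun y hy => hasDerivAt_ψ a b (h0.trans hy.1) (by linarith [hy.2])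
  obtain ⟨η, hη, eη⟩ := exists_hasDerivAt_eq_slope (ψ a b) (dψ a b) h23
    (cont (h0.trans h12) (by linarith)) fun y hy =>
      hasDerivAt_ψ a b ((h0.trans h12).trans hy.1) (by linarith [hy.2])
  have n1 : dψ a b ξ ≤ 0 := by
    rw [eξ]; exact div_nonpos_of_nonpos_of_nonneg (by linarith) (by linarith)
  have n2 : 0 ≤ dψ a b η := by
    rw [eη]; exact div_nonneg (by linarith) (by linarith)
  have hξη : ξ < η := hξ.2.trans hη.1
  have p1 : 0 < ψ a b ξ := ψ_S1 a b h0 hξ.1 (by linarith [hξ.2]) h.le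
  have := ψ_S2 a b (h0.trans hξ.1) hξη (by linarith [hη.2]) p1 n2
  linarith

end Pool.Agent.Q82.KR
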