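import Pool.Agent.Q82.KR.Key

set_option autoImplicit false

/-! # Shape of `ψ(y) = L ^ (a+1) y ^ (b+1) - M ^ (a+1) (1-y) ^ (b+1)` on `(0, 1/2)` -/

namespace Pool.Agent.Q82.KR

open Real Set

lemma w_eq {y : ℝ} (h0 : 0 < y) (h1 : y < 1) :
    w y * (L y * M y) = y * L y + (1 - y) * M y := by
  have hL := L_pos h0 h1
  have hM := M_pos h0 h1
  unfold w
  field_simp
  ring

lemma H_lt_one {y : ℝ} (h0 : 0 < y) (h1 : y < 1) : y * L y + (1 - y) * M y < 1 := by
  have hz : 0 < 1 - y := by linarith
  have a : L y < 1 / y - 1 := by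
    have := Real.log_lt_sub_one_of_pos (show 0 < 1 / y by positivity)
      (by rw [Ne, div_eq_one_iff_eq h0.ne']; linarith)
    rw [one_div, Real.log_inv] at this
    rw [one_div]; exact this
  have b : M y ≤ 1 / (1 - y) - 1 := by
    have := Real.log_le_sub_one_of_pos (show 0 < 1 / (1 - y) by positivity)
    rw [one_div, Real.log_inv] at this
    rw [one_div]; exact this
  have a' : y * L y < 1 - y := by
    have := mul_lt_mul_of_pos_left a h0
    have e : y * (1 / y - 1) = 1 - y := by field_simp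
    linarith
  have b' : (1 - y) * M y ≤ y := by
    have := mul_le_mul_of_nonneg_left b hz.le
    have e : (1 - y) * (1 / (1 - y) - 1) = y := by field_simp; ring
    linarith
  linarith

/-- the cubic `G` -/
noncomputable def G (y κ : ℝ) : ℝ :=
  (1 - κ) * ((κ * L y - 1) * (1 - κ * M y)) + κ * (1 - κ * (y * L y + (1 - y) * M y))

lemma G_w {y : ℝ} (h0 : 0 < y) (h1 : y < 1 / 2) : 0 < G y (w y) := by
  have hL := L_pos h0 (show y < 1 by linarith)
  have hM := M_pos h0 (show y < 1 by linarith)
  have hLM := M_lt_L h0 h1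
  have e : G y (w y) = (L y - M y) * ((1 - y) ^ 2 * M y ^ 2 - y ^ 2 * L y ^ 2 +
      y * (1 - y) * L y * M y * (L y - M y)) / (L y * M y) ^ 2 := by
    unfold G w
    field_simp
    ring
  rw [e]
  exact div_pos (mul_pos (by linarith) (key h0 h1)) (by positivity)

lemma G_pos {y κ : ℝ} (h0 : 0 < y) (h1 : y < 1 / 2) (hκ : 0 < κ) (hw : κ < w y)
    (hA : 1 < κ * L y) (hB : κ * M y < 1) : 0 < G y κ := by
  have hL := L_pos h0 (show y < 1 by linarith)
  have hM := M_pos h0 (show y < 1 by linarith)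
  have hH := H_lt_one h0 (show y < 1 by linarith)
  have hH0 : 0 < y * L y + (1 - y) * M y := by
    have : 0 < 1 - y := by linarith
    positivity
  have hwP := w_eq h0 (show y < 1 by linarith)
  rcases le_or_gt κ 1 with h | h
  · unfold G
    have a : 0 ≤ (1 - κ) * ((κ * L y - 1) * (1 - κ * M y)) :=
      mul_nonneg (by linarith) (mul_nonneg (by linarith) (by linarith))
    have b : κ * (y * L y + (1 - y) * M y) < 1 := by nlinarith
    have c : 0 < κ * (1 - κ * (y * L y + (1 - y) * M y)) := mul_pos hκ (by linarith)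
    linarith
  · have hw1 : 0 < w y - 1 := by linarith
    have e : (w y - 1) * G y κ = (w y - κ) * G y 1 + (κ - 1) * G y (w y) +
        (κ - 1) * (w y - κ) * (w y - 1) * (L y + M y - κ * (L y * M y)) +
        (κ - 1) * (w y - κ) * (w y - 1) *
          ((y * L y + (1 - y) * M y) - w y * (L y * M y)) := by
      unfold G; ring
    have g1 : 0 < G y 1 := by unfold G; linarith
    have g2 := G_w h0 h1
    have g3 : κ * (L y * M y) < L y + M y := by
      have : κ * (L y * M y) < w y * (L y * M y) := mul_lt_mul_of_pos_right hw (by positivity)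
      have h2 : y * L y ≤ L y := by nlinarith
      have h3 : (1 - y) * M y ≤ M y := by nlinarith
      linarith
    have t1 : 0 < (w y - κ) * G y 1 := mul_pos (by linarith) g1
    have t2 : 0 < (κ - 1) * G y (w y) := mul_pos (by linarith) g2
    have t3 : 0 < (κ - 1) * (w y - κ) * (w y - 1) * (L y + M y - κ * (L y * M y)) :=
      mul_pos (mul_pos (mul_pos (by linarith) (by linarith)) hw1) (by linarith)
    have t4 : (κ - 1) * (w y - κ) * (w y - 1) *
          ((y * L y + (1 - y) * M y) - w y * (L y * M y)) = 0 := by rw [hwP]; ring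
    have : 0 < (w y - 1) * G y κ := by rw [e]; linarith
    exact (mul_pos_iff_of_pos_left hw1).1 this

lemma w_lt {y : ℝ} (h0 : 0 < y) (h1 : y < 1 / 2) : w y * M y < 1 := by
  have hL := L_pos h0 (show y < 1 by linarith)
  have hM := M_pos h0 (show y < 1 by linarith)
  have hLM := M_lt_L h0 h1
  have hwP := w_eq h0 (show y < 1 by linarith)
  have : w y * M y * L y < 1 * L y := by
    have : w y * M y * L y = w y * (L y * M y) := by ring
    rw [this, hwP]
    nlinarith
  exact lt_of_mul_lt_mul_right this hL.le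

lemma lt_w {y : ℝ} (h0 : 0 < y) (h1 : y < 1 / 2) : 1 < w y * L y := by
  have hL := L_pos h0 (show y < 1 by linarith)
  have hM := M_pos h0 (show y < 1 by linarith)
  have hLM := M_lt_L h0 h1
  have hwP := w_eq h0 (show y < 1 by linarith)
  have : 1 * M y < w y * L y * M y := by
    have : w y * L y * M y = w y * (L y * M y) := by ring
    rw [this, hwP]
    nlinarith
  exact lt_of_mul_lt_mul_right this hM.le

variable (a b : ℕ)

/-- the logarithm of the quotient of the two terms of `ψ` -/
noncomputable def r (y : ℝ) : ℝ :=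
  (a + 1) * (Real.log (L y) - Real.log (M y)) + (b + 1) * (Real.log y - Real.log (1 - y))

/-- the logarithm of the quotient of the two terms of `ψ'` -/
noncomputable def θ (y : ℝ) : ℝ :=
  a * (Real.log (L y) - Real.log (M y)) + b * (Real.log y - Real.log (1 - y)) +
    Real.log ((b + 1) * L y - (a + 1)) - Real.log ((a + 1) - (b + 1) * M y)

lemma hasDerivAt_log1 {y : ℝ} (h1 : y < 1) :
    HasDerivAt (fun y => Real.log (1 - y)) (-(1 / (1 - y))) y := by
  have h := ((hasDerivAt_id y).const_sub 1).log (show (1 : ℝ) - id y ≠ 0 by simp; linarith)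
  refine h.congr_deriv ?_
  simp [neg_div]

lemma hasDerivAt_r {y : ℝ} (h0 : 0 < y) (h1 : y < 1) :
    HasDerivAt (r a b) (-((a + 1) * w y - (b + 1)) / (y * (1 - y))) y := by
  have hL := L_pos h0 h1
  have hM := M_pos h0 h1
  have hz : 0 < 1 - y := by linarith
  have d := ((((hasDerivAt_L h0).log hL.ne').sub ((hasDerivAt_M h1).log hM.ne')).const_mul
    ((a : ℝ) + 1)).add (((Real.hasDerivAt_log h0.ne').sub (hasDerivAt_log1 h1)).const_mul
    ((b : ℝ) + 1))
  refine d.congr_deriv ?_
  unfold w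
  field_simp
  ring

lemma hasDerivAt_θ {y : ℝ} (h0 : 0 < y) (h1 : y < 1) (hA : 0 < (b + 1) * L y - (a + 1))
    (hB : 0 < (a + 1) - (b + 1) * M y) :
    HasDerivAt (θ a b) (-(a * w y - b + (b + 1) * (1 - y) / ((b + 1) * L y - (a + 1)) -
      (b + 1) * y / ((a + 1) - (b + 1) * M y)) / (y * (1 - y))) y := by
  have hL := L_pos h0 h1
  have hM := M_pos h0 h1
  have hz : 0 < 1 - y := by linarith
  have dA : HasDerivAt (fun y => (b + 1) * L y - (a + 1)) ((b + 1) * (-(1 / y))) y :=
    ((hasDerivAt_L h0).const_mul ((b : ℝ) + 1)).sub_const _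
  have dB : HasDerivAt (fun y => (a + 1) - (b + 1) * M y) (-((b + 1) * (1 / (1 - y)))) y :=
    ((hasDerivAt_M h1).const_mul ((b : ℝ) + 1)).const_sub _
  have d := (((((hasDerivAt_L h0).log hL.ne').sub ((hasDerivAt_M h1).log hM.ne')).const_mul
    (a : ℝ)).add (((Real.hasDerivAt_log h0.ne').sub (hasDerivAt_log1 h1)).const_mul
    (b : ℝ))).add (dA.log hA.ne') |>.sub (dB.log hB.ne')
  refine d.congr_deriv ?_
  unfold w
  field_simp
  ring

lemma E_pos {y : ℝ} (h0 : 0 < y) (h1 : y < 1 / 2) (hA : 0 < (b + 1) * L y - (a + 1))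
    (hw : ((b : ℝ) + 1) < (a + 1) * w y) :
    0 < a * w y - b + (b + 1) * (1 - y) / ((b + 1) * L y - (a + 1)) -
      (b + 1) * y / ((a + 1) - (b + 1) * M y) := by
  have ha : (0 : ℝ) < a + 1 := by positivity
  have hb : (0 : ℝ) < b + 1 := by positivity
  have hL := L_pos h0 (show y < 1 by linarith)
  have hM := M_pos h0 (show y < 1 by linarith)
  set κ : ℝ := (b + 1) / (a + 1) with hκ
  have hκ0 : 0 < κ := div_pos hb ha
  have eκ : (b : ℝ) + 1 = κ * (a + 1) := by rw [hκ]; field_simp
  have hw' : κ < w y := by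
    rw [eκ, mul_comm] at hw
    exact lt_of_mul_lt_mul_left hw ha.le
  have hB1 : κ * M y < 1 := lt_trans (mul_lt_mul_of_pos_right hw' hM) (w_lt h0 h1)
  have eA : (b + 1) * L y - (a + 1) = (a + 1) * (κ * L y - 1) := by rw [eκ]; ring
  have eB : (a + 1) - (b + 1) * M y = (a + 1) * (1 - κ * M y) := by rw [eκ]; ring
  have hA1 : 1 < κ * L y := by
    rw [eA] at hA
    have := (mul_pos_iff_of_pos_left ha).1 hA
    linarith
  have hG := G_pos h0 h1 hκ0 hw' hA1 hB1
  have hA2 : 0 < κ * L y - 1 := by linarith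
  have hB2 : 0 < 1 - κ * M y := by linarith
  have e1 : a * w y - b + (b + 1) * (1 - y) / ((b + 1) * L y - (a + 1)) -
      (b + 1) * y / ((a + 1) - (b + 1) * M y) =
      a * (w y - κ) + G y κ / ((κ * L y - 1) * (1 - κ * M y)) := by
    rw [eA, eB, eκ]
    have e2 : (b : ℝ) = κ * (a + 1) - 1 := by linarith
    rw [e2]
    unfold G
    field_simp
    ring
  rw [e1]
  have t1 : 0 ≤ (a : ℝ) * (w y - κ) := mul_nonneg (by positivity) (by linarith)
  have t2 : 0 < G y κ / ((κ * L y - 1) * (1 - κ * M y)) := by positivity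
  linarith

end Pool.Agent.Q82.KR
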